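import Pool.Agent.H43.TP.Defs

/-!
# TP Ev: facts for large `N`
-/

set_option autoImplicit false

namespace Pool.Agent.H43.TP

open Finset
open Pool.Agent.H43.MP (blk Hn idx Rn)

theorem ev_large (θ c : ℝ) (h0 : 0 < θ) (h1 : θ < 1 / 3) (hc : 0 < c) (hc1 : c ≤ 1) (B : ℕ) :
    ∃ N0 : ℕ, ∀ N : ℕ, N0 ≤ N → 400 ≤ c * Real.log N ∧ (N : ℝ) ^ θ / 2 ≤ Hn θ N ∧ 1 ≤ Hn θ N ∧
      8 * Hn θ N ≤ N ∧ Real.log N ^ (2 * B) ≤ Hn θ N ∧
      2 * (Rn B N : ℝ) ^ 4 ≤ Hn θ N / Real.log N ^ 3 ∧ 1 ≤ Rn B N ∧ (Rn B N : ℝ) ≤ Real.log N ^ B ∧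
      Real.log N ≤ Real.log (4 * N) ∧ Real.log (4 * N) ≤ 3 / 2 * Real.log N ∧
      (2 - c / 2) * Real.log (4 * N) ≤ 2 * Real.log N := by
  obtain ⟨x1, hx1⟩ := Pool.Agent.H76.GB.log_ge (400 / c)
  obtain ⟨x2, hx2⟩ := Pool.Agent.H76.GB.log_pow_le θ 4 h0 (by norm_num) (4 * B + 3)
  obtain ⟨x3, hx3⟩ := Pool.Agent.H76.GB.log_pow_le (2 / 3) 8 (by norm_num) (by norm_num) 0
  refine ⟨max x1 (max x2 x3), fun N hN => ?_⟩
  have g1 := hx1 N ((le_max_left _ _).trans hN)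
  have g2 := hx2 N (((le_max_left _ _).trans (le_max_right _ _)).trans hN)
  have g3 := hx3 N (((le_max_right _ _).trans (le_max_right _ _)).trans hN)
  rw [pow_zero, mul_one] at g3
  set L := Real.log N with hL
  have hLc : 400 ≤ c * L := by
    rw [div_le_iff₀ hc] at g1
    linarith
  have hL400 : 400 ≤ L := by nlinarith
  have hN0 : N ≠ 0 := by
    rintro rfl
    rw [hL] at hL400
    norm_num at hL400
  have hN1 : (1 : ℝ) ≤ N := by exact_mod_cast Nat.one_le_iff_ne_zero.2 hN0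
  have hNpos : (0 : ℝ) < N := by linarith
  have hL1 : 1 ≤ L := by linarith
  have hNθ1 : (1 : ℝ) ≤ (N : ℝ) ^ θ := Real.one_le_rpow hN1 h0.le
  have q1 : (N : ℝ) ^ θ < Hn θ N + 1 := Nat.lt_floor_add_one _
  have q2 : (Hn θ N : ℝ) ≤ (N : ℝ) ^ θ := Nat.floor_le (by positivity)
  have q3 : 1 ≤ Hn θ N := Nat.floor_pos.2 hNθ1
  have q4 : (1 : ℝ) ≤ Hn θ N := by exact_mod_cast q3
  have q5 : (N : ℝ) ^ θ / 2 ≤ Hn θ N := by linarith
  have q6 : 2 * L ^ (4 * B + 3) ≤ Hn θ N := by linarith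
  have r1 : (Rn B N : ℝ) ≤ L ^ B := Nat.floor_le (by positivity)
  have r2 : 1 ≤ Rn B N := Nat.floor_pos.2 (one_le_pow₀ hL1)
  have hlog : Real.log (4 * N) = Real.log 4 + L := by
    rw [Real.log_mul (by norm_num) hNpos.ne']
  have hl4 : 0 ≤ Real.log 4 := Real.log_nonneg (by norm_num)
  have hl42 : Real.log 4 ≤ 3 := by
    have := Real.log_le_sub_one_of_pos (by norm_num : (0 : ℝ) < 4)
    linarith
  refine ⟨hLc, q5, q3, ?_, ?_, ?_, r2, r1, ?_, ?_, ?_⟩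
  · have t1 : (N : ℝ) ^ θ ≤ (N : ℝ) ^ (1 / 3 : ℝ) := Real.rpow_le_rpow_of_exponent_le hN1 h1.le
    have t2 : (N : ℝ) = (N : ℝ) ^ (1 / 3 : ℝ) * (N : ℝ) ^ (2 / 3 : ℝ) := by
      rw [← Real.rpow_add hNpos]
      norm_num
    have t3 : (0 : ℝ) ≤ (N : ℝ) ^ (1 / 3 : ℝ) := by positivity
    have t4 : (8 : ℝ) * Hn θ N ≤ N := by
      rw [t2]
      nlinarith
    exact_mod_cast t4
  · have t1 : L ^ (2 * B) ≤ L ^ (4 * B + 3) := pow_le_pow_right₀ hL1 (by omega)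
    have t2 : 0 ≤ L ^ (4 * B + 3) := by positivity
    linarith
  · rw [le_div_iff₀ (by positivity)]
    have t1 : (Rn B N : ℝ) ^ 4 ≤ (L ^ B) ^ 4 := pow_le_pow_left₀ (Nat.cast_nonneg _) r1 4
    have t2 : (L ^ B) ^ 4 * L ^ 3 = L ^ (4 * B + 3) := by
      rw [← pow_mul, ← pow_add]
      congr 1
      ring
    calc 2 * (Rn B N : ℝ) ^ 4 * L ^ 3 ≤ 2 * ((L ^ B) ^ 4) * L ^ 3 :=
          mul_le_mul_of_nonneg_right (by linarith) (by positivity)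
      _ = 2 * L ^ (4 * B + 3) := by rw [mul_assoc, t2]
      _ ≤ Hn θ N := q6
  · rw [hlog]
    linarith
  · rw [hlog]
    linarith
  · rw [hlog]
    nlinarith

end Pool.Agent.H43.TP
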