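import Pool.Agent.H43.TP.Defs
import Pool.Agent.H53.MID.HSq

/-!
# TP LamSq: the second moment of `Λ_R` in the blocks

Copy of `HSq_lamR` (private in `H53/MID/HSq.lean`): `∑_{Ico u (u+w)} lamR^2 ≤ 5 w ∑_{c ≤ R} 1/φ(c)` for `R^2 ≤ w`, and
`∑_{c ≤ R} 1/φ(c) ≤ (2 log R + 2)(1 + log R) ≤ L` for large `N` (`R ≤ L^B`).
-/

set_option autoImplicit false

namespace Pool.Agent.H43.TP

open Finset
open Pool.Agent.H91.EHA (Lam lamR ramS)
open Pool.Agent.H43.MP (blk Hn idx Rn)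

/-- mean square of `lamR` in a short interval -/
private theorem LamSq_lamR (R u w : ℕ) (hu : 1 ≤ u) (hw : 0 < w) (hR : R ^ 2 ≤ w) :
    ∑ k ∈ Ico u (u + w), lamR R k ^ 2 ≤ 5 * w * ∑ c ∈ Icc 1 R, 1 / (c.totient : ℝ) := by
  classical
  set J : Finset (Σ _ : ℕ, ℕ) := (Icc 1 R).sigma (fun r => Pool.Agent.H92.EH.red r) with hJ
  have hsp : ∀ i ∈ J, ∀ j ∈ J, i ≠ j → ∀ k : ℤ,
      (1 : ℝ) / w ≤ |(i.2 : ℝ) / i.1 - (j.2 : ℝ) / j.1 - k| := by
    rintro ⟨r, b⟩ hi ⟨r', b'⟩ hj hne k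
    rw [hJ, mem_sigma, mem_Icc] at hi hj
    simp only at hi hj
    refine le_trans ?_ (Pool.Agent.H92.EH.farey_spacing (by omega) (by omega) hi.2 hj.2 ?_ k)
    · apply one_div_le_one_div_of_le
      · have h1 : (0 : ℝ) < r := by exact_mod_cast hi.1.1
        have h2 : (0 : ℝ) < r' := by exact_mod_cast hj.1.1
        positivity
      · have : r * r' ≤ w := by
          calc r * r' ≤ R * R := Nat.mul_le_mul hi.1.2 hj.1.2
            _ = R ^ 2 := by ring
            _ ≤ w := hR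
        exact_mod_cast this
    · rintro ⟨rfl, rfl⟩
      exact hne rfl
  set m : ℕ → ℝ := fun c => ((ArithmeticFunction.moebius c : ℤ) : ℝ) / (c.totient : ℝ) with hm
  set cf : (Σ _ : ℕ, ℕ) → ℂ := fun j => ((m j.1 : ℝ) : ℂ) *
    Pool.Agent.H92.EH.e (((u : ℝ) - 1) * ((j.2 : ℝ) / j.1)) with hcf
  have hen : ∀ t : ℝ, ‖Pool.Agent.H92.EH.e t‖ = 1 := fun t => by
    rw [Pool.Agent.H76.EHB.HRm_e, Pool.Agent.H91.PK.LSa_norm_ee]
  have h := Pool.Agent.H92.EH.dual_large_sieve J (fun j => (j.2 : ℝ) / j.1) cf w w le_rfl hw hsp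
  have himg : Ico u (u + w) = (Icc 1 w).image (fun n => u + n - 1) := by
    ext k
    rw [Finset.mem_Ico, Finset.mem_image]
    constructor
    · rintro ⟨h3, h4⟩
      exact ⟨k + 1 - u, by rw [Finset.mem_Icc]; omega, by omega⟩
    · rintro ⟨n, hn, rfl⟩
      rw [Finset.mem_Icc] at hn
      omega
  have h1 : ∀ n ∈ Icc 1 w, lamR R (u + n - 1) ^ 2 =
      ‖∑ j ∈ J, cf j * Pool.Agent.H92.EH.e (n * ((j.2 : ℝ) / j.1))‖ ^ 2 := by
    intro n hn
    rw [Finset.mem_Icc] at hn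
    have h2 := Pool.Agent.H76.EHB.lamR_eq R (u + n - 1) (by omega)
    have h3 : ∑ j ∈ J, cf j * Pool.Agent.H92.EH.e (n * ((j.2 : ℝ) / j.1)) =
        ((lamR R (u + n - 1) : ℝ) : ℂ) := by
      rw [h2, hJ, sum_sigma]
      refine sum_congr rfl fun c _ => ?_
      rw [mul_sum]
      refine sum_congr rfl fun b _ => ?_
      have h4 : ((u + n - 1 : ℕ) : ℝ) = ((u : ℝ) - 1) + n := by
        rw [Nat.cast_sub (by omega)]
        push_cast
        ring
      rw [hcf]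
      simp only
      rw [Pool.Agent.H76.EHB.HRm_e, Pool.Agent.H76.EHB.HRm_e, mul_assoc,
        ← Pool.Agent.H91.PK.LSa_ee_add, h4, ← add_mul]
    rw [h3, Complex.norm_real, Real.norm_eq_abs, sq_abs]
  rw [himg, Finset.sum_image (by
    intro a ha b hb hab
    simp only [Finset.coe_Icc, Set.mem_Icc] at ha hb
    simp only at hab
    omega), sum_congr rfl h1]
  refine h.trans (mul_le_mul_of_nonneg_left ?_ (by positivity))
  rw [hJ, sum_sigma]
  refine sum_le_sum fun c hc => ?_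
  have h5 : ∀ b ∈ Pool.Agent.H92.EH.red c, ‖cf ⟨c, b⟩‖ ^ 2 = m c ^ 2 := fun b _ => by
    rw [hcf]
    simp only
    rw [norm_mul, hen, mul_one, Complex.norm_real, Real.norm_eq_abs, sq_abs]
  rw [sum_congr rfl h5, sum_const, Pool.Agent.H92.EH.card_red, nsmul_eq_mul]
  have hc1 : 0 < c := (mem_Icc.mp hc).1
  have ht : (0 : ℝ) < c.totient := by exact_mod_cast Nat.totient_pos.mpr hc1
  have hmu : (((ArithmeticFunction.moebius c : ℤ) : ℝ)) ^ 2 ≤ 1 := by
    have h5 := ArithmeticFunction.abs_moebius_le_one (n := c)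
    have h6 : |((ArithmeticFunction.moebius c : ℤ) : ℝ)| ≤ 1 := by exact_mod_cast h5
    rw [← sq_abs]
    exact pow_le_one₀ (abs_nonneg _) h6
  rw [hm]
  simp only
  rw [div_pow, mul_div_assoc', div_le_div_iff₀ (by positivity) ht]
  nlinarith [mul_pos ht ht]


private theorem LamSq_log (B : ℕ) : ∃ N0 : ℕ, 3 ≤ N0 ∧ ∀ N : ℕ, N0 ≤ N →
    1 ≤ Real.log N ∧
    5 * ((2 * (B * Real.log (Real.log N)) + 1) * (1 + 2 * (B * Real.log (Real.log N)))) ≤ Real.log N ^ 2 := by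
  have h1 : Filter.Tendsto (fun x : ℝ => Real.log x / x) Filter.atTop (nhds 0) := by
    have := Real.isLittleO_log_id_atTop.tendsto_div_nhds_zero
    simpa using this
  have h2 : ∀ᶠ x : ℝ in Filter.atTop, Real.log x / x < 1 / (24 * (B + 1)) := by
    refine h1.eventually (gt_mem_nhds ?_)
    positivity
  have h3 : ∀ᶠ x : ℝ in Filter.atTop, 12 ≤ x := Filter.eventually_ge_atTop _
  have hlog : Filter.Tendsto (fun N : ℕ => Real.log N) Filter.atTop Filter.atTop :=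
    Real.tendsto_log_atTop.comp tendsto_natCast_atTop_atTop
  obtain ⟨N0, hN0⟩ := Filter.eventually_atTop.mp (hlog.eventually (h2.and h3))
  refine ⟨max N0 3, le_max_right _ _, fun N hN => ?_⟩
  obtain ⟨h4, h5⟩ := hN0 N ((le_max_left _ _).trans hN)
  have hx : 0 < Real.log N := by linarith
  refine ⟨by linarith, ?_⟩
  set x := Real.log N with hxd
  have h6 : Real.log x < x / (24 * (B + 1)) := by
    rw [div_lt_iff₀ hx] at h4
    calc Real.log x < 1 / (24 * ((B : ℝ) + 1)) * x := h4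
      _ = x / (24 * (B + 1)) := by ring
  have h7 : 0 ≤ Real.log x := Real.log_nonneg (by linarith)
  have hB : (0 : ℝ) ≤ B := Nat.cast_nonneg B
  have h8 : B * Real.log x ≤ x / 24 := by
    have h9 : (B : ℝ) * Real.log x ≤ (B + 1) * Real.log x :=
      mul_le_mul_of_nonneg_right (by linarith) h7
    have h10 : (B + 1) * Real.log x ≤ (B + 1) * (x / (24 * (B + 1))) :=
      mul_le_mul_of_nonneg_left h6.le (by linarith)
    have h11 : ((B : ℝ) + 1) * (x / (24 * (B + 1))) = x / 24 := by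
      field_simp
    linarith
  have h12 : 0 ≤ (B : ℝ) * Real.log x := mul_nonneg hB h7
  have h13 : 2 * (B * Real.log x) + 1 ≤ x / 6 := by linarith
  calc 5 * ((2 * (B * Real.log x) + 1) * (1 + 2 * (B * Real.log x)))
      = 5 * (2 * (B * Real.log x) + 1) ^ 2 := by ring
    _ ≤ 5 * (x / 6) ^ 2 :=
        mul_le_mul_of_nonneg_left (pow_le_pow_left₀ (by positivity) h13 2) (by norm_num)
    _ ≤ x ^ 2 := by nlinarith [sq_nonneg x]

theorem lamR_blk (B : ℕ) : ∃ N0 : ℕ, ∀ N : ℕ, N0 ≤ N → ∀ H i : ℕ, 1 ≤ i → Real.log N ^ (2 * B) ≤ H →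
    ∑ m ∈ blk H i, lamR (Rn B N) m ^ 2 ≤ H * Real.log N ^ 2 := by
  obtain ⟨N0, -, hN0⟩ := LamSq_log B
  refine ⟨N0, fun N hN H i hi hH => ?_⟩
  obtain ⟨hL, hmain⟩ := hN0 N hN
  set L := Real.log N with hLd
  have hL0 : 0 < L := by linarith
  have hpow : (1 : ℝ) ≤ L ^ B := one_le_pow₀ hL
  have hH1 : 0 < H := by
    have h1 : (0 : ℝ) < L ^ (2 * B) := by positivity
    exact_mod_cast h1.trans_le hH
  have hRle : ((Rn B N : ℕ) : ℝ) ≤ L ^ B := Nat.floor_le (by positivity)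
  have hR1 : 1 ≤ Rn B N := Nat.le_floor (by simpa using hpow)
  set R := Rn B N with hRd
  have hR2 : R ^ 2 ≤ H := by
    have h1 : ((R : ℝ)) ^ 2 ≤ H := by
      calc (R : ℝ) ^ 2 ≤ (L ^ B) ^ 2 := pow_le_pow_left₀ (Nat.cast_nonneg R) hRle 2
        _ = L ^ (2 * B) := by rw [← pow_mul, mul_comm]
        _ ≤ H := hH
    exact_mod_cast h1
  have hblk : blk H i = Ico (i * H) (i * H + H) := by
    unfold blk
    rw [add_mul, one_mul]
  rw [hblk]
  refine (LamSq_lamR R (i * H) H (Nat.mul_pos hi hH1) hH1 hR2).trans ?_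
  have h2 := Pool.Agent.H76.EHB.HRm_tot (R ^ 2) R hR1 le_rfl
  have hR0 : (0 : ℝ) < R := by exact_mod_cast hR1
  have h3 : Real.log ((R ^ 2 : ℕ) : ℝ) ≤ 2 * (B * Real.log L) := by
    push_cast
    rw [Real.log_pow]
    push_cast
    have h4 : Real.log R ≤ Real.log (L ^ B) := Real.log_le_log hR0 hRle
    rw [Real.log_pow] at h4
    linarith
  have h5 : 0 ≤ Real.log ((R ^ 2 : ℕ) : ℝ) := Real.log_natCast_nonneg _
  have h6 : (Real.log ((R ^ 2 : ℕ) : ℝ) + 1) * (1 + Real.log ((R ^ 2 : ℕ) : ℝ)) ≤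
      (2 * (B * Real.log L) + 1) * (1 + 2 * (B * Real.log L)) :=
    mul_le_mul (by linarith) (by linarith) (by linarith) (by linarith)
  have h7 : (0 : ℝ) ≤ H := Nat.cast_nonneg H
  calc 5 * (H : ℝ) * ∑ c ∈ Icc 1 R, 1 / (c.totient : ℝ)
      ≤ 5 * H * ((2 * (B * Real.log L) + 1) * (1 + 2 * (B * Real.log L))) :=
        mul_le_mul_of_nonneg_left (h2.trans h6) (by positivity)
    _ = H * (5 * ((2 * (B * Real.log L) + 1) * (1 + 2 * (B * Real.log L)))) := by ring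
    _ ≤ H * L ^ 2 := mul_le_mul_of_nonneg_left hmain h7

end Pool.Agent.H43.TP
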