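import Pool.Agent.H43.TP.Defs

/-!
# TP Alg: the inequality `1_P 1_P' ≥ 1_P F' + F 1_P' - F F'`, the splitting `F = k Λ_R + F#`, the solutions
-/

set_option autoImplicit false

namespace Pool.Agent.H43.TP

open Finset
open Pool.Agent.H91.PK (ee)
open Pool.Agent.H91.EHA (Lam lamR)
open Pool.Agent.H43.MP (blk Hn idx Rn)

/-- the indicator of the primes -/
noncomputable def pr (m : ℕ) : ℝ := if m.Prime then 1 else 0

/-- the number of `u ∈ blk` with `u` and `2n - u` prime -/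
noncomputable def cn (H i n : ℕ) : ℝ := ∑ u ∈ blk H i, pr u * pr (2 * n - u)

theorem cnt_ge (H i n : ℕ) (ℓ : ℝ) (hℓ : 0 < ℓ) (F : ℕ → ℝ)
    (h1 : ∀ u ∈ blk H i, 0 ≤ F u ∧ (u.Prime → 1 ≤ F u))
    (h2 : ∀ u ∈ blk H i, 0 ≤ F (2 * n - u) ∧ ((2 * n - u).Prime → 1 ≤ F (2 * n - u)))
    (h3 : ∀ u ∈ blk H i, Lam u ≤ ℓ * pr u)
    (h4 : ∀ u ∈ blk H i, Lam (2 * n - u) ≤ ℓ * pr (2 * n - u)) :
    rf H i Lam F n / ℓ + rf H i F Lam n / ℓ - rf H i F F n ≤ cn H i n := by
  unfold rf cn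
  rw [Finset.sum_div, Finset.sum_div, ← Finset.sum_add_distrib, ← Finset.sum_sub_distrib]
  refine Finset.sum_le_sum fun u hu => ?_
  obtain ⟨a1, a2⟩ := h1 u hu
  obtain ⟨b1, b2⟩ := h2 u hu
  have c1 := h3 u hu
  have c2 := h4 u hu
  have p1 : pr u ≤ F u := by
    unfold pr
    split_ifs with h
    · exact a2 h
    · exact a1
  have p2 : pr (2 * n - u) ≤ F (2 * n - u) := by
    unfold pr
    split_ifs with h
    · exact b2 h
    · exact b1
  have d1 : Lam u * F (2 * n - u) / ℓ ≤ pr u * F (2 * n - u) := by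
    rw [div_le_iff₀ hℓ]
    calc Lam u * F (2 * n - u) ≤ (ℓ * pr u) * F (2 * n - u) := mul_le_mul_of_nonneg_right c1 b1
      _ = pr u * F (2 * n - u) * ℓ := by ring
  have d2 : F u * Lam (2 * n - u) / ℓ ≤ F u * pr (2 * n - u) := by
    rw [div_le_iff₀ hℓ]
    calc F u * Lam (2 * n - u) ≤ F u * (ℓ * pr (2 * n - u)) := mul_le_mul_of_nonneg_left c2 a1
      _ = F u * pr (2 * n - u) * ℓ := by ring
  have d3 : 0 ≤ (F u - pr u) * (F (2 * n - u) - pr (2 * n - u)) :=
    mul_nonneg (by linarith) (by linarith)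
  nlinarith

theorem rf_add_right (H i : ℕ) (f g g' : ℕ → ℝ) (k : ℝ) (n : ℕ) :
    rf H i f (fun m => k * g m + g' m) n = k * rf H i f g n + rf H i f g' n := by
  unfold rf
  rw [Finset.mul_sum, ← Finset.sum_add_distrib]
  refine Finset.sum_congr rfl fun u _ => ?_
  ring

theorem rf_add_left (H i : ℕ) (f g g' : ℕ → ℝ) (k : ℝ) (n : ℕ) :
    rf H i (fun m => k * g m + g' m) f n = k * rf H i g f n + rf H i g' f n := by
  unfold rf
  rw [Finset.mul_sum, ← Finset.sum_add_distrib]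
  refine Finset.sum_congr rfl fun u _ => ?_
  ring

theorem F_split (R : ℕ) (k : ℝ) (F : ℕ → ℝ) : F = fun m => k * lamR R m + Fh R k F m := by
  funext m
  unfold Fh
  ring

theorem rf_LF (H i R : ℕ) (k : ℝ) (F : ℕ → ℝ) (n : ℕ) :
    rf H i Lam F n = k * rf H i Lam (lamR R) n + rf H i Lam (Fh R k F) n := by
  conv_lhs => rw [F_split R k F]
  exact rf_add_right H i Lam (lamR R) (Fh R k F) k n

theorem rf_FL (H i R : ℕ) (k : ℝ) (F : ℕ → ℝ) (n : ℕ) :
    rf H i F Lam n = k * rf H i (lamR R) Lam n + rf H i (Fh R k F) Lam n := by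
  conv_lhs => rw [F_split R k F]
  exact rf_add_left H i Lam (lamR R) (Fh R k F) k n

theorem rf_FF (H i R : ℕ) (k : ℝ) (F : ℕ → ℝ) (n : ℕ) :
    rf H i F F n = k ^ 2 * rf H i (lamR R) (lamR R) n + k * rf H i (lamR R) (Fh R k F) n
      + rf H i (Fh R k F) F n := by
  have h1 : rf H i F F n = k * rf H i (lamR R) F n + rf H i (Fh R k F) F n := by
    have := rf_add_left H i F (lamR R) (Fh R k F) k n
    rw [← this]
    congr 1
    exact F_split R k F
  have h2 : rf H i (lamR R) F n = k * rf H i (lamR R) (lamR R) n + rf H i (lamR R) (Fh R k F) n := by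
    have := rf_add_right H i (lamR R) (lamR R) (Fh R k F) k n
    rw [← this]
    congr 1
    exact F_split R k F
  rw [h1, h2]
  ring

/-- the final inequality in one block -/
theorem blk_alg (X1 X2 X3 M1 M2 M3 E1 E2 E3 E4 k H L l S c : ℝ) (hc : 0 < c) (hc1 : c ≤ 1)
    (hH : 0 ≤ H) (hL : 400 ≤ c * L) (hl1 : L ≤ l) (hl2 : (2 - c / 2) * l ≤ 2 * L) (hS : 1 ≤ S)
    (hk1 : 1 / (2 * L) ≤ k) (hk2 : k ≤ (2 - c) / L)
    (e1 : X1 = k * M1 + E1) (e2 : X2 = k * M2 + E2) (e3 : X3 = k ^ 2 * M3 + k * E3 + E4)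
    (m1 : |M1 - H * S| ≤ H / L ^ 3) (m2 : |M2 - H * S| ≤ H / L ^ 3) (m3 : |M3 - H * S| ≤ H / L ^ 3)
    (t1 : |E1| ≤ H / L ^ 3) (t2 : |E2| ≤ H / L ^ 3) (t3 : |E3| ≤ H / L ^ 3) (t4 : |E4| ≤ H / L ^ 3) :
    c / 8 * (H / L ^ 2) ≤ X1 / l + X2 / l - X3 := by
  have hL0 : 0 < L := by nlinarith
  have hL400 : 400 ≤ L := by nlinarith
  have hl0 : 0 < l := by linarith
  set T : ℝ := H / L ^ 3 with hT
  have hT0 : 0 ≤ T := by positivity
  have hk0 : 0 < k := lt_of_lt_of_le (by positivity) hk1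
  have hkL : k * L ≤ 2 - c := by
    rw [le_div_iff₀ hL0] at hk2
    exact hk2
  have hkL1 : 1 / 2 ≤ k * L := by
    rw [div_le_iff₀ (by positivity)] at hk1
    linarith
  have hk3 : k ≤ 1 := by
    by_contra h
    push Not at h
    nlinarith
  rw [abs_le] at m1 m2 m3 t1 t2 t3 t4
  -- lower bound of the first two terms
  have a1 : (k * (H * S - T) - T) / l ≤ X1 / l := by
    refine div_le_div_of_nonneg_right ?_ hl0.le
    rw [e1]
    have := mul_le_mul_of_nonneg_left (show H * S - T ≤ M1 by linarith) hk0.le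
    linarith
  have a2 : (k * (H * S - T) - T) / l ≤ X2 / l := by
    refine div_le_div_of_nonneg_right ?_ hl0.le
    rw [e2]
    have := mul_le_mul_of_nonneg_left (show H * S - T ≤ M2 by linarith) hk0.le
    linarith
  have a3 : X3 ≤ k ^ 2 * (H * S + T) + k * T + T := by
    rw [e3]
    have b1 := mul_le_mul_of_nonneg_left (show M3 ≤ H * S + T by linarith) (sq_nonneg k)
    have b2 := mul_le_mul_of_nonneg_left t3.2 hk0.le
    linarith
  -- the main part
  have b1 : (k * (H * S - T) - T) / l = k * (H * S) / l - (k * T + T) / l := by ring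
  have b2 : (k * T + T) / l ≤ T := by
    rw [div_le_iff₀ hl0]
    nlinarith
  have b3 : (2 - c / 2) / L ≤ 2 / l := by
    rw [div_le_div_iff₀ hL0 hl0]
    exact hl2
  have b4 : k * (H * S) / l * 2 = k * (H * S) * (2 / l) := by ring
  have b5 : k * (H * S) * ((2 - c / 2) / L) ≤ k * (H * S) * (2 / l) :=
    mul_le_mul_of_nonneg_left b3 (by positivity)
  have b6 : k ^ 2 * (H * S) = k * (H * S) * k := by ring
  have b7 : k * (H * S) * k ≤ k * (H * S) * ((2 - c) / L) :=
    mul_le_mul_of_nonneg_left hk2 (by positivity)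
  have b8 : k * (H * S) * ((2 - c / 2) / L) - k * (H * S) * ((2 - c) / L) = k * (H * S) * (c / 2 / L) := by
    ring
  have b9 : H / (2 * L) * (c / 2 / L) ≤ k * (H * S) * (c / 2 / L) := by
    refine mul_le_mul_of_nonneg_right ?_ (by positivity)
    calc H / (2 * L) = (1 / (2 * L)) * (H * 1) := by ring
      _ ≤ k * (H * S) := mul_le_mul hk1 (mul_le_mul_of_nonneg_left hS hH) (by positivity) hk0.le
  have b10 : H / (2 * L) * (c / 2 / L) = c / 4 * (H / L ^ 2) := by
    field_simp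
    ring
  -- the errors: at most `5 T`
  have c1 : k ^ 2 * T ≤ T := mul_le_of_le_one_left hT0 (pow_le_one₀ hk0.le hk3)
  have c2 : k * T ≤ T := mul_le_of_le_one_left hT0 hk3
  have c3 : 5 * T ≤ c / 8 * (H / L ^ 2) := by
    have : T * L = H / L ^ 2 := by
      rw [hT]
      field_simp
    rw [← this]
    nlinarith
  have c4 : k ^ 2 * (H * S + T) = k ^ 2 * (H * S) + k ^ 2 * T := by ring
  linarith

/-- the solutions -/
theorem cn_le (H i n : ℕ) (hi : 1 ≤ i) (hn : n ∈ blk H i) : cn H i n ≤ ((sol2 H n).ncard : ℝ) := by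
  classical
  unfold blk at hn
  rw [mem_Ico] at hn
  have e1 : (i + 1) * H = i * H + H := by ring
  have e2 : H ≤ i * H := Nat.le_mul_of_pos_left H hi
  set S := (blk H i).filter (fun u => u.Prime ∧ (2 * n - u).Prime) with hS
  have h1 : cn H i n = (S.card : ℝ) := by
    unfold cn
    rw [hS, Finset.card_filter]
    push_cast
    refine Finset.sum_congr rfl fun u _ => ?_
    unfold pr
    by_cases a : u.Prime <;> by_cases b : (2 * n - u).Prime <;> simp [a, b]
  rw [h1]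
  have hfin : (sol2 H n).Finite := by
    refine Set.Finite.subset (Set.finite_Icc (-(H : ℤ)) H) ?_
    rintro x ⟨hx, -⟩
    rw [Set.mem_Icc]
    exact abs_le.1 hx
  have h2 : ((S.image (fun u : ℕ => (n : ℤ) - u) : Finset ℤ) : Set ℤ) ⊆ sol2 H n := by
    intro x hx
    rw [Finset.mem_coe, Finset.mem_image] at hx
    obtain ⟨u, hu, rfl⟩ := hx
    rw [hS, Finset.mem_filter] at hu
    obtain ⟨hu1, hu2, hu3⟩ := hu
    unfold blk at hu1
    rw [mem_Ico] at hu1
    refine ⟨?_, u, 2 * n - u, hu2, hu3, ?_, ?_⟩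
    · rw [abs_le]
      constructor <;> omega
    · omega
    · omega
  have h3 := Set.ncard_le_ncard h2 hfin
  rw [Set.ncard_coe_finset, Finset.card_image_of_injective] at h3
  · exact_mod_cast h3
  · intro a b hab
    simp only at hab
    omega

end Pool.Agent.H43.TP
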