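import Pool.Agent.H43.MP.Defs
import Pool.Agent.H43.MP.Blk
import Pool.Agent.H76.GB.Defs

/-!
# PROJECT TP, Part 5 (MP_967f73_nt): two primes with `|x| ≤ n^θ`, `2/7 < θ < 1/3`: definitions and interface

Blocks `blk H i = [iH, (i+1)H)`, `H = Hn θ N = ⌊N^θ⌋`, `R = Rn B N = ⌊L^B⌋`, `L = log N`.

* `TPIN θ c`: the black box (LFU of the majorant `F` of the primes and its density `κ ≤ (2-c)/L`);
* `badN`: the `n` where the primes of `2n - blk` are not equidistributed modulo some `r ≤ L^B`;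
* `r1, r2, r3`: the three sums of the inequality `1_P 1_P' ≥ 1_P F' + F 1_P' - F F'`.
-/

set_option autoImplicit false

namespace Pool.Agent.H43.TP

open Finset
open Pool.Agent.H91.PK (ee)
open Pool.Agent.H91.EHA (Lam lamR)
open Pool.Agent.H43.MP (blk Hn idx Rn)

open Classical in
/-- the blocks where the local Fourier uniformity of `F - κ Λ_R` fails -/
noncomputable def badF (N H R A : ℕ) (F κ : ℕ → ℝ) : Finset ℕ :=
  (idx N H).filter (fun i => ∃ α : ℝ,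
    (H : ℝ) / Real.log N ^ A < ‖∑ m ∈ blk H i, ((F m - κ i * lamR R m : ℝ) : ℂ) * ee (-(α * m))‖)

/-- the black box: a majorant `F ≥ 1_P`, locally Fourier uniform with the model `κ Λ_R`, `κ ≤ (2 - c)/log N` -/
def TPIN (θ c : ℝ) : Prop := ∃ C : ℕ, ∀ A : ℕ, ∃ B N0 : ℕ, ∀ N : ℕ, N0 ≤ N → ∃ F κ : ℕ → ℝ,
  (∀ m : ℕ, N ≤ 4 * m → m ≤ 4 * N → 0 ≤ F m ∧ (m.Prime → 1 ≤ F m)) ∧
  (∀ i ∈ idx N (Hn θ N), 0 ≤ κ i ∧ κ i ≤ (2 - c) / Real.log N) ∧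
  (∀ i ∈ idx N (Hn θ N), ∑ m ∈ blk (Hn θ N) i, F m ^ 2 ≤ Hn θ N * Real.log N ^ C) ∧
  (∀ i ∈ idx N (Hn θ N), i + 1 ∈ idx N (Hn θ N) → |κ i - κ (i + 1)| ≤ 1 / Real.log N ^ A) ∧
  ((badF N (Hn θ N) (Rn B N) A F κ).card : ℝ) ≤ (N : ℝ) / (Hn θ N) / Real.log N ^ A

open Classical in
/-- the `n` such that the primes of `2n - blk H (n/H)` are not equidistributed -/
noncomputable def badN (N H A B : ℕ) : Finset ℕ :=
  (Ioc N (2 * N)).filter (fun n => ∃ r a : ℕ, 1 ≤ r ∧ (r : ℝ) ≤ Real.log N ^ B ∧ Nat.Coprime a r ∧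
    (H : ℝ) / Real.log N ^ A <
      ‖∑ u ∈ blk H (n / H), ((Lam (2 * n - u) : ℝ) : ℂ) * ee (-((a : ℝ) * ((2 * n - u : ℕ) : ℝ) / r))
      - (((ArithmeticFunction.moebius r : ℝ) / (r.totient : ℝ) * H : ℝ) : ℂ)‖)

open Classical in
/-- the `n` with a proper prime power at distance `≤ 2H` -/
noncomputable def ppX (N H : ℕ) : Finset ℕ :=
  (Ioc N (2 * N)).filter (fun n => ∃ m : ℕ, n ≤ m + 2 * H ∧ m ≤ n + 2 * H ∧ IsPrimePow m ∧ ¬ m.Prime)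

/-- `∑_{u ∈ blk} f(u) g(2n - u)` -/
noncomputable def rf (H i : ℕ) (f g : ℕ → ℝ) (n : ℕ) : ℝ := ∑ u ∈ blk H i, f u * g (2 * n - u)

/-- `F# = F - k Λ_R` -/
noncomputable def Fh (R : ℕ) (k : ℝ) (F : ℕ → ℝ) (m : ℕ) : ℝ := F m - k * lamR R m

/-- the solutions: `x` with `|x| ≤ H`, `n - x` and `n + x` primes -/
def sol2 (H n : ℕ) : Set ℤ :=
  {x : ℤ | |x| ≤ H ∧ ∃ p q : ℕ, p.Prime ∧ q.Prime ∧ (n : ℤ) - x = p ∧ (n : ℤ) + x = q}

end Pool.Agent.H43.TP
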