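import Pool.Agent.H43.TP.Defs
import Pool.Agent.H43.MP.Conv

/-!
# TP Err: mean squares of the error sums (Parseval)
-/

set_option autoImplicit false

namespace Pool.Agent.H43.TP

open Finset
open Pool.Agent.H91.PK (ee)
open Pool.Agent.H43.MP (blk Hn idx Rn)

/-- `∑_n (∑_{u ∈ blk} f(u) g(2n-u))^2`, `g` uniform on the three blocks -/
theorem err1 (f g : ℕ → ℝ) (H i : ℕ) (hi : 1 ≤ i) (S : ℝ)
    (h0 : ∀ α : ℝ, ‖∑ m ∈ blk H (i - 1), ((g m : ℝ) : ℂ) * ee (-(α * m))‖ ≤ S)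
    (h1 : ∀ α : ℝ, ‖∑ m ∈ blk H i, ((g m : ℝ) : ℂ) * ee (-(α * m))‖ ≤ S)
    (h2 : ∀ α : ℝ, ‖∑ m ∈ blk H (i + 1), ((g m : ℝ) : ℂ) * ee (-(α * m))‖ ≤ S) :
    ∑ n ∈ blk H i, rf H i f g n ^ 2 ≤ 9 * S ^ 2 * ∑ m ∈ blk H i, f m ^ 2 := by
  obtain ⟨j, rfl⟩ : ∃ j, i = j + 1 := ⟨i - 1, by omega⟩
  rw [Nat.add_sub_cancel] at h0
  set Y : Finset ℕ := Ico (j * H) ((j + 3) * H) with hY
  have e1 : (j + 1) * H = j * H + H := by ring
  have e2 : (j + 1 + 1) * H = j * H + 2 * H := by ring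
  have e3 : (j + 3) * H = j * H + 3 * H := by ring
  have e4 : (j + 1 + 1 + 1) * H = j * H + 3 * H := by ring
  have hYs : ∀ α : ℝ, ‖∑ m ∈ Y, ((g m : ℝ) : ℂ) * ee (-(α * m))‖ ≤ 3 * S := by
    intro α
    have h3 : ∑ m ∈ Y, ((g m : ℝ) : ℂ) * ee (-(α * m)) =
        ∑ m ∈ blk H j, ((g m : ℝ) : ℂ) * ee (-(α * m)) +
        ∑ m ∈ blk H (j + 1), ((g m : ℝ) : ℂ) * ee (-(α * m)) +
        ∑ m ∈ blk H (j + 1 + 1), ((g m : ℝ) : ℂ) * ee (-(α * m)) := by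
      unfold blk
      rw [Finset.sum_Ico_consecutive _ (by rw [e1]; omega) (by rw [e1, e2]; omega),
        Finset.sum_Ico_consecutive _ (by rw [e2]; omega) (by rw [e2, e4]; omega)]
    rw [h3]
    calc _ ≤ S + S + S := (norm_add_le _ _).trans (add_le_add ((norm_add_le _ _).trans
            (add_le_add (h0 α) (h1 α))) (h2 α))
      _ = 3 * S := by ring
  have key := Pool.Agent.H43.MP.conv_l2 f g (blk H (j + 1)) Y ((blk H (j + 1)).image (fun n => 2 * n))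
    (3 * S) hYs
  rw [Finset.sum_image (fun a _ b _ hab => by omega)] at key
  have h4 : ∑ n ∈ blk H (j + 1), rf H (j + 1) f g n ^ 2 =
      ∑ n ∈ blk H (j + 1), (∑ m ∈ (blk H (j + 1)).filter (fun m => m ≤ 2 * n ∧ 2 * n - m ∈ Y),
        f m * g (2 * n - m)) ^ 2 := by
    refine Finset.sum_congr rfl fun n hn => ?_
    unfold rf
    congr 1
    rw [Finset.filter_true_of_mem]
    intro m hm
    unfold blk at hm hn
    rw [Finset.mem_Ico, e1, e2] at hm hn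
    rw [hY, Finset.mem_Ico, e3]
    omega
  rw [h4]
  refine key.trans (le_of_eq ?_)
  ring

/-- `∑_n (∑_{u ∈ blk} g(u) f(2n-u))^2`, `g` uniform on the block -/
theorem err2 (f g : ℕ → ℝ) (H i : ℕ) (hi : 1 ≤ i) (S : ℝ)
    (h1 : ∀ α : ℝ, ‖∑ m ∈ blk H i, ((g m : ℝ) : ℂ) * ee (-(α * m))‖ ≤ S) :
    ∑ n ∈ blk H i, rf H i g f n ^ 2 ≤ S ^ 2 * (∑ m ∈ blk H (i - 1), f m ^ 2 + ∑ m ∈ blk H i, f m ^ 2
      + ∑ m ∈ blk H (i + 1), f m ^ 2) := by
  obtain ⟨j, rfl⟩ : ∃ j, i = j + 1 := ⟨i - 1, by omega⟩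
  rw [Nat.add_sub_cancel]
  set Y : Finset ℕ := Ico (j * H) ((j + 3) * H) with hY
  have e1 : (j + 1) * H = j * H + H := by ring
  have e2 : (j + 1 + 1) * H = j * H + 2 * H := by ring
  have e3 : (j + 3) * H = j * H + 3 * H := by ring
  have e4 : (j + 1 + 1 + 1) * H = j * H + 3 * H := by ring
  have h3 : ∑ m ∈ Y, f m ^ 2 = ∑ m ∈ blk H j, f m ^ 2 + ∑ m ∈ blk H (j + 1), f m ^ 2
      + ∑ m ∈ blk H (j + 1 + 1), f m ^ 2 := by
    unfold blk
    rw [Finset.sum_Ico_consecutive _ (by rw [e1]; omega) (by rw [e1, e2]; omega),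
      Finset.sum_Ico_consecutive _ (by rw [e2]; omega) (by rw [e2, e4]; omega)]
  have key := Pool.Agent.H43.MP.conv_l2 f g Y (blk H (j + 1)) ((blk H (j + 1)).image (fun n => 2 * n))
    S h1
  rw [Finset.sum_image (fun a _ b _ hab => by omega), h3] at key
  refine le_trans (le_of_eq ?_) key
  refine Finset.sum_congr rfl fun n hn => ?_
  unfold rf
  congr 1
  refine Finset.sum_nbij' (fun u => 2 * n - u) (fun u => 2 * n - u) ?_ ?_ ?_ ?_ ?_
  · intro u hu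
    unfold blk at hu hn
    rw [Finset.mem_Ico, e1, e2] at hu hn
    unfold blk
    rw [Finset.mem_filter, hY, Finset.mem_Ico, Finset.mem_Ico, e1, e2, e3]
    omega
  · intro u hu
    rw [Finset.mem_filter] at hu
    exact hu.2.2
  · intro u hu
    unfold blk at hu hn
    rw [Finset.mem_Ico, e1, e2] at hu hn
    omega
  · intro u hu
    rw [Finset.mem_filter] at hu
    omega
  · intro u hu
    unfold blk at hu hn
    rw [Finset.mem_Ico, e1, e2] at hu hn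
    have : 2 * n - (2 * n - u) = u := by omega
    rw [this, mul_comm]

end Pool.Agent.H43.TP
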