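import Pool.Agent.H43.TP.Defs
import Pool.Agent.H43.MP.MainTerm

/-!
# TP M12: the main terms `∑ Λ(u) Λ_R(2n-u)`, `∑ Λ_R(u) Λ(2n-u)`

`lamR R k = ∑_{r ≤ R} μ(r)/φ(r) ∑_{b mod r, (b,r)=1} e(k b/r)` (`ramS_eq`), `k = 2n - u`: `e((2n-u) b/r) = e(2n b/r) e(-u b/r)`;
`i ∉ badP`: `∑_{u ∈ blk} Λ(u) e(-u b/r) = μ(r)/φ(r) H + O(H/L^A)`; the main terms add up to `H SR R (2n)` as in `rm_near` of
`H43/MP/MainTerm.lean` (which is the same with an additional sum over `p`).
-/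

set_option autoImplicit false

namespace Pool.Agent.H43.TP

open Finset
open Pool.Agent.H91.PK (ee)
open Pool.Agent.H91.EHA (Lam lamR ramS)
open Pool.Agent.H43.MP (blk Hn idx Rn badP)
open Pool.Agent.H76.GB (SR)

/-- the reduced residues -/
private def M12_red (r : ℕ) : Finset ℕ := (Icc 1 r).filter (fun b => Nat.Coprime b r)

private theorem M12_card (r : ℕ) (_hr : 1 ≤ r) : (M12_red r).card = r.totient := by
  have h := Nat.filter_coprime_Ico_eq_totient r 1
  rw [← h]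
  unfold M12_red
  congr 1
  ext b
  simp only [mem_filter, mem_Icc, mem_Ico]
  constructor
  · rintro ⟨⟨h1, h2⟩, h3⟩
    exact ⟨⟨h1, by omega⟩, h3.symm⟩
  · rintro ⟨⟨h1, h2⟩, h3⟩
    exact ⟨⟨h1, by omega⟩, h3.symm⟩

/-- the general statement: `∑ g(u) Λ_R(E - v(u))` -/
private theorem M12_gen (R : ℕ) (S : Finset ℕ) (g : ℕ → ℝ) (v : ℕ → ℕ) (E : ℕ)
    (hv : ∀ u ∈ S, v u ≤ E) (δ H : ℝ)
    (hgood : ∀ r ∈ Icc 1 R, ∀ b ∈ M12_red r, ‖∑ u ∈ S, ((g u : ℝ) : ℂ) * ee (-((b : ℝ) * (v u : ℕ) / r))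
      - (((ArithmeticFunction.moebius r : ℝ) / (r.totient : ℝ) * H : ℝ) : ℂ)‖ ≤ δ) :
    |∑ u ∈ S, g u * lamR R (E - v u) - H * SR R E| ≤ R * δ := by
  -- the exact formula
  have hexact : ((∑ u ∈ S, g u * lamR R (E - v u) : ℝ) : ℂ)
      = ∑ r ∈ Icc 1 R, (((ArithmeticFunction.moebius r : ℝ) / (r.totient : ℝ) : ℝ) : ℂ)
        * ∑ b ∈ M12_red r, ee ((E : ℝ) * b / r) * ∑ u ∈ S, ((g u : ℝ) : ℂ) * ee (-((b : ℝ) * (v u : ℕ) / r)) := by
    have h1 : ∀ u ∈ S, ((g u * lamR R (E - v u) : ℝ) : ℂ)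
        = ∑ r ∈ Icc 1 R, (((ArithmeticFunction.moebius r : ℝ) / (r.totient : ℝ) : ℝ) : ℂ)
          * ∑ b ∈ M12_red r, ee ((E : ℝ) * b / r) * (((g u : ℝ) : ℂ) * ee (-((b : ℝ) * (v u : ℕ) / r))) := by
      intro u hu
      have hle := hv u hu
      have h3 : ((lamR R (E - v u) : ℝ) : ℂ) = ∑ r ∈ Icc 1 R,
          (((ArithmeticFunction.moebius r : ℝ) / (r.totient : ℝ) : ℝ) : ℂ)
            * ∑ b ∈ M12_red r, ee (((E - v u : ℕ) : ℝ) * b / r) := by
        unfold lamR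
        rw [Complex.ofReal_sum]
        refine sum_congr rfl fun r hr => ?_
        rw [mem_Icc] at hr
        rw [Complex.ofReal_mul, Pool.Agent.H91.EHA.ramS_eq r _ hr.1]
        rfl
      rw [Complex.ofReal_mul, h3, mul_sum]
      refine sum_congr rfl fun r hr => ?_
      rw [mul_left_comm]
      congr 1
      rw [mul_sum]
      refine sum_congr rfl fun b _ => ?_
      have h4 : ee (((E - v u : ℕ) : ℝ) * b / r)
          = ee ((E : ℝ) * b / r) * ee (-((b : ℝ) * (v u : ℕ) / r)) := by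
        rw [← Pool.Agent.H91.PK.LSa_ee_add]
        congr 1
        rw [Nat.cast_sub hle]
        ring
      rw [h4]
      ring
    rw [Complex.ofReal_sum, sum_congr rfl h1, sum_comm]
    refine sum_congr rfl fun r _ => ?_
    rw [← mul_sum, sum_comm]
    congr 1
    refine sum_congr rfl fun b _ => ?_
    rw [← mul_sum]
  -- the main term
  have hmain : ((H * SR R E : ℝ) : ℂ) = ∑ r ∈ Icc 1 R,
      (((ArithmeticFunction.moebius r : ℝ) / (r.totient : ℝ) : ℝ) : ℂ)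
        * ∑ b ∈ M12_red r, ee ((E : ℝ) * b / r) *
          (((ArithmeticFunction.moebius r : ℝ) / (r.totient : ℝ) * H : ℝ) : ℂ) := by
    unfold SR
    rw [Complex.ofReal_mul, Complex.ofReal_sum, mul_sum]
    refine sum_congr rfl fun r hr => ?_
    rw [mem_Icc] at hr
    have h1 := Pool.Agent.H91.EHA.ramS_eq r E hr.1
    have h2 : ((ArithmeticFunction.moebius r : ℝ) ^ 2 * ramS r E / (r.totient : ℝ) ^ 2 : ℝ)
        = ((ArithmeticFunction.moebius r : ℝ) / (r.totient : ℝ)) ^ 2 * ramS r E := by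
      rw [div_pow]; ring
    rw [h2, Complex.ofReal_mul, h1, mul_sum, mul_sum, mul_sum]
    refine sum_congr rfl fun b _ => ?_
    push_cast
    ring
  have hkey : ‖((∑ u ∈ S, g u * lamR R (E - v u) : ℝ) : ℂ) - ((H * SR R E : ℝ) : ℂ)‖
      ≤ ∑ r ∈ Icc 1 R, ∑ _b ∈ M12_red r, 1 / (r.totient : ℝ) * δ := by
    rw [hexact, hmain, ← sum_sub_distrib]
    refine norm_sum_le_of_le _ fun r hr => ?_
    rw [← mul_sub, ← sum_sub_distrib, mul_sum]
    refine norm_sum_le_of_le _ fun b hb => ?_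
    have hr1 : 1 ≤ r := (mem_Icc.1 hr).1
    have hphi : (0 : ℝ) < r.totient := by exact_mod_cast Nat.totient_pos.2 hr1
    rw [← mul_sub, norm_mul, norm_mul, Pool.Agent.H91.PK.LSa_norm_ee, one_mul,
      Complex.norm_real, Real.norm_eq_abs, abs_div, abs_of_pos hphi]
    have hmu : |(ArithmeticFunction.moebius r : ℝ)| ≤ 1 := by
      have := ArithmeticFunction.abs_moebius_le_one (n := r)
      exact_mod_cast this
    exact mul_le_mul (div_le_div_of_nonneg_right hmu hphi.le) (hgood r hr b hb) (norm_nonneg _) (by positivity)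
  rw [← Complex.ofReal_sub, Complex.norm_real, Real.norm_eq_abs] at hkey
  refine hkey.trans (le_of_eq ?_)
  have : ∀ r ∈ Icc 1 R, ∑ _b ∈ M12_red r, 1 / (r.totient : ℝ) * δ = δ := by
    intro r hr
    rw [mem_Icc] at hr
    rw [sum_const, M12_card r hr.1, nsmul_eq_mul]
    have : (0 : ℝ) < r.totient := by exact_mod_cast Nat.totient_pos.2 hr.1
    field_simp
  rw [sum_congr rfl this]
  simp only [sum_const, Nat.card_Icc, nsmul_eq_mul, add_tsub_cancel_right]

private theorem M12_r_le (B N r : ℕ) (hr : r ≤ Rn B N) : (r : ℝ) ≤ Real.log N ^ B := by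
  have h1 : (r : ℝ) ≤ Rn B N := by exact_mod_cast hr
  refine h1.trans ?_
  unfold Rn
  refine Nat.floor_le ?_
  have : 0 ≤ Real.log N := Real.log_natCast_nonneg N
  positivity

theorem m1 (N A B H i n : ℕ) (hi1 : 1 ≤ i) (hi : i ∈ idx N H) (hg : i ∉ badP N H A B) (hn : n ∈ blk H i) :
    |rf H i Lam (lamR (Rn B N)) n - H * SR (Rn B N) (2 * n)| ≤ Rn B N * ((H : ℝ) / Real.log N ^ A) := by
  unfold rf
  refine M12_gen (Rn B N) (blk H i) Lam (fun u => u) (2 * n) ?_ ((H : ℝ) / Real.log N ^ A) H ?_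
  · intro u hu
    unfold blk at hn hu
    rw [mem_Ico] at hn hu
    have h1 : (i + 1) * H ≤ 2 * (i * H) := by nlinarith
    show u ≤ 2 * n
    omega
  · intro r hr b hb
    by_contra hcon
    push Not at hcon
    apply hg
    classical
    unfold badP
    rw [mem_Icc] at hr
    unfold M12_red at hb
    rw [mem_filter] at hb
    simp only [mem_filter]
    exact ⟨hi, r, b, hr.1, M12_r_le B N r hr.2, hb.2, hcon⟩

theorem m2 (N A B H n : ℕ) (hH : 1 ≤ H) (hHn : H ≤ n) (hn : n ∈ Ioc N (2 * N)) (hg : n ∉ badN N H A B) :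
    |rf H (n / H) (lamR (Rn B N)) Lam n - H * SR (Rn B N) (2 * n)| ≤ Rn B N * ((H : ℝ) / Real.log N ^ A) := by
  have hle : ∀ u ∈ blk H (n / H), u ≤ 2 * n := by
    intro u hu
    unfold blk at hu
    rw [mem_Ico] at hu
    have h1 : n / H * H ≤ n := Nat.div_mul_le_self n H
    have h2 : (n / H + 1) * H = n / H * H + H := by ring
    omega
  have h0 : rf H (n / H) (lamR (Rn B N)) Lam n
      = ∑ u ∈ blk H (n / H), Lam (2 * n - u) * lamR (Rn B N) (2 * n - (2 * n - u)) := by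
    unfold rf
    refine sum_congr rfl fun u hu => ?_
    rw [Nat.sub_sub_self (hle u hu), mul_comm]
  rw [h0]
  refine M12_gen (Rn B N) (blk H (n / H)) (fun u => Lam (2 * n - u)) (fun u => 2 * n - u) (2 * n)
    (fun u _ => Nat.sub_le _ _) ((H : ℝ) / Real.log N ^ A) H ?_
  intro r hr b hb
  by_contra hcon
  push Not at hcon
  apply hg
  classical
  unfold badN
  rw [mem_Icc] at hr
  unfold M12_red at hb
  rw [mem_filter] at hb
  simp only [mem_filter]
  exact ⟨hn, r, b, hr.1, M12_r_le B N r hr.2, hb.2, hcon⟩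

end Pool.Agent.H43.TP
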