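import Pool.Agent.H43.TP.Defs
import Pool.Agent.H91.EHA.SwK2

/-!
# TP M3: the main term `∑ Λ_R(u) Λ_R(2n-u)`

`lamR R k = ∑_{r ≤ R} μ(r)/φ(r) ∑_{b} e(k b/r)` (`ramS_eq`): the sum is
`∑_{(r,b),(r',b')} μ(r) μ(r')/(φ(r) φ(r')) e(2n b'/r') ∑_{u ∈ blk} e(u (b/r - b'/r'))`; the diagonal `(r,b) = (r',b')` gives
`H SR R (2n)`; off the diagonal `‖b/r - b'/r'‖ ≥ 1/(r r') ≥ 1/R^2` (Farey), so the inner sum is `≤ 1/(2 ‖.‖) ≤ R^2`, and
`∑_{(r,b)} 1/φ(r) = R`: in total `≤ R^4`.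
-/

set_option autoImplicit false

namespace Pool.Agent.H43.TP

open Finset
open Pool.Agent.H91.PK (ee)
open Pool.Agent.H91.EHA (Lam lamR ramS)
open Pool.Agent.H43.MP (blk Hn idx Rn)
open Pool.Agent.H76.GB (SR)

private theorem M3_ee (t : ℝ) : ee t = Pool.Agent.H92.EH.e t := by
  unfold ee Pool.Agent.H92.EH.e
  congr 1
  push_cast
  ring

private theorem M3_red (c : ℕ) (hc : 1 ≤ c) (f : ℕ → ℂ) (hf : f c = f 0) :
    ∑ b ∈ (Icc 1 c).filter (fun b => Nat.Coprime b c), f b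
      = ∑ b ∈ Pool.Agent.H92.EH.red c, f b := by
  rcases Nat.eq_or_lt_of_le hc with h1 | h1
  · subst h1
    have e1 : (Icc 1 1).filter (fun b => Nat.Coprime b 1) = {1} := by decide
    have e2 : Pool.Agent.H92.EH.red 1 = {0} := by decide
    rw [e1, e2, sum_singleton, sum_singleton, hf]
  · apply sum_congr _ (fun _ _ => rfl)
    ext b
    rw [mem_filter, mem_Icc, Pool.Agent.H92.EH.mem_red]
    constructor
    · rintro ⟨⟨h2, h3⟩, h4⟩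
      refine ⟨lt_of_le_of_ne h3 ?_, h4⟩
      rintro rfl
      rw [Nat.coprime_self] at h4
      omega
    · rintro ⟨h2, h4⟩
      refine ⟨⟨Nat.one_le_iff_ne_zero.mpr ?_, h2.le⟩, h4⟩
      rintro rfl
      rw [Nat.coprime_zero_left] at h4
      omega

private theorem M3_ram (c n : ℕ) (hc : 1 ≤ c) :
    ((ramS c n : ℝ) : ℂ) = ∑ b ∈ Pool.Agent.H92.EH.red c,
      Pool.Agent.H92.EH.e (n * ((b : ℝ) / c)) := by
  have hc0 : (c : ℝ) ≠ 0 := by exact_mod_cast (by omega : c ≠ 0)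
  rw [Pool.Agent.H91.EHA.ramS_eq c n hc, M3_red c hc (fun b => ee ((n : ℝ) * b / c))]
  · apply sum_congr rfl
    intro b _
    rw [M3_ee]
    congr 1
    ring
  · rw [M3_ee, M3_ee]
    have h1 : (n : ℝ) * (c : ℝ) / c = (n : ℝ) := by field_simp
    have h2 : (n : ℝ) * ((0 : ℕ) : ℝ) / c = ((0 : ℕ) : ℝ) := by simp
    rw [h1, h2, Pool.Agent.H92.EH.e_nat, Pool.Agent.H92.EH.e_nat]

/-- the coefficient -/
private noncomputable def M3_m (d : ℕ) : ℝ := (ArithmeticFunction.moebius d : ℝ) / (d.totient : ℝ)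

/-- the index set -/
private def M3_T (R : ℕ) : Finset (Σ _ : ℕ, ℕ) := (Icc 1 R).sigma fun d => Pool.Agent.H92.EH.red d

private theorem M3_memT {R : ℕ} {x : Σ _ : ℕ, ℕ} (hx : x ∈ M3_T R) :
    (1 ≤ x.1 ∧ x.1 ≤ R) ∧ x.2 ∈ Pool.Agent.H92.EH.red x.1 := by
  unfold M3_T at hx
  rw [mem_sigma, mem_Icc] at hx
  exact hx

private theorem M3_lamR (R n : ℕ) :
    ((lamR R n : ℝ) : ℂ) = ∑ x ∈ M3_T R,
      ((M3_m x.1 : ℝ) : ℂ) * Pool.Agent.H92.EH.e (n * ((x.2 : ℝ) / x.1)) := by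
  unfold M3_T
  rw [sum_sigma]
  unfold lamR
  rw [Complex.ofReal_sum]
  apply sum_congr rfl
  intro d hd
  rw [mem_Icc] at hd
  rw [Complex.ofReal_mul, M3_ram d n hd.1, mul_sum]
  rfl

private theorem M3_SR (R n : ℕ) :
    ((SR R n : ℝ) : ℂ) = ∑ x ∈ M3_T R,
      ((M3_m x.1 : ℝ) : ℂ) * ((M3_m x.1 : ℝ) : ℂ) *
        Pool.Agent.H92.EH.e (n * ((x.2 : ℝ) / x.1)) := by
  unfold M3_T
  rw [sum_sigma]
  unfold SR
  rw [Complex.ofReal_sum]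
  apply sum_congr rfl
  intro d hd
  rw [mem_Icc] at hd
  have h1 : (ArithmeticFunction.moebius d : ℝ) ^ 2 * ramS d n / (d.totient : ℝ) ^ 2 =
      (M3_m d * M3_m d) * ramS d n := by
    unfold M3_m
    ring
  rw [h1, Complex.ofReal_mul, M3_ram d n hd.1, mul_sum, Complex.ofReal_mul]

private theorem M3_summ (R : ℕ) : ∑ x ∈ M3_T R, |M3_m x.1| ≤ R := by
  unfold M3_T
  rw [sum_sigma]
  calc ∑ d ∈ Icc 1 R, ∑ _b ∈ Pool.Agent.H92.EH.red d, |M3_m d| ≤ ∑ _d ∈ Icc 1 R, (1 : ℝ) := by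
        apply sum_le_sum
        intro d hd
        rw [mem_Icc] at hd
        have htot : (0 : ℝ) < (d.totient : ℝ) := by exact_mod_cast Nat.totient_pos.mpr hd.1
        rw [sum_const, Pool.Agent.H92.EH.card_red, nsmul_eq_mul]
        unfold M3_m
        rw [abs_div, abs_of_pos htot, mul_div_cancel₀ _ htot.ne']
        exact_mod_cast ArithmeticFunction.abs_moebius_le_one
    _ = R := by
        rw [sum_const, Nat.card_Icc, Nat.add_sub_cancel, nsmul_eq_mul, mul_one]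

private theorem M3_geom (H i : ℕ) (t δ : ℝ) (hδ : 0 < δ) (h : ∀ m : ℤ, δ ≤ |t - m|) :
    ‖∑ n ∈ blk H i, Pool.Agent.H92.EH.e (n * t)‖ ≤ 1 / (2 * δ) := by
  have h3 := Pool.Agent.H92.EH.le_norm_e_sub_one h
  have h1 : ∑ n ∈ blk H i, Pool.Agent.H92.EH.e (n * t)
      = Pool.Agent.H92.EH.e ((i * H : ℕ) * t) *
        ∑ n ∈ range ((i + 1) * H - i * H), Pool.Agent.H92.EH.e t ^ n := by
    unfold blk
    rw [sum_Ico_eq_sum_range, mul_sum]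
    apply sum_congr rfl
    intro n _
    rw [← Pool.Agent.H92.EH.e_nat_mul, ← Pool.Agent.H92.EH.e_add]
    congr 1
    push_cast
    ring
  have h2 : (∑ n ∈ range ((i + 1) * H - i * H), Pool.Agent.H92.EH.e t ^ n) *
      (Pool.Agent.H92.EH.e t - 1) = Pool.Agent.H92.EH.e t ^ ((i + 1) * H - i * H) - 1 :=
    geom_sum_mul _ _
  have h4 : ‖(∑ n ∈ range ((i + 1) * H - i * H), Pool.Agent.H92.EH.e t ^ n)‖ *
      ‖Pool.Agent.H92.EH.e t - 1‖ ≤ 2 := by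
    rw [← norm_mul, h2]
    refine (norm_sub_le _ _).trans ?_
    rw [norm_pow, Pool.Agent.H92.EH.norm_e, one_pow, norm_one]
    norm_num
  rw [h1, norm_mul, Pool.Agent.H92.EH.norm_e, one_mul, le_div_iff₀ (by positivity)]
  have h5 : ‖(∑ n ∈ range ((i + 1) * H - i * H), Pool.Agent.H92.EH.e t ^ n)‖ * (4 * δ) ≤ 2 :=
    (mul_le_mul_of_nonneg_left h3 (norm_nonneg _)).trans h4
  linarith

theorem m3 (R H i n : ℕ) (hi1 : 1 ≤ i) (hn : n ∈ blk H i) :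
    |rf H i (lamR R) (lamR R) n - H * SR R (2 * n)| ≤ (R : ℝ) ^ 4 := by
  classical
  have hmem : ∀ u ∈ blk H i, u ≤ 2 * n := by
    intro u hu
    unfold blk at hu hn
    rw [mem_Ico] at hu hn
    have h1 : (i + 1) * H ≤ 2 * (i * H) := by nlinarith
    omega
  have hcard : (blk H i).card = H := by
    unfold blk
    rw [Nat.card_Ico]
    have : (i + 1) * H = i * H + H := by ring
    omega
  -- expansion
  have hexp : ((rf H i (lamR R) (lamR R) n : ℝ) : ℂ) = ∑ x ∈ M3_T R, ∑ y ∈ M3_T R,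
      ((M3_m x.1 : ℝ) : ℂ) * ((M3_m y.1 : ℝ) : ℂ) *
        Pool.Agent.H92.EH.e ((2 * n : ℕ) * ((y.2 : ℝ) / y.1)) *
        ∑ u ∈ blk H i, Pool.Agent.H92.EH.e (u * ((x.2 : ℝ) / x.1 - (y.2 : ℝ) / y.1)) := by
    unfold rf
    rw [Complex.ofReal_sum]
    calc ∑ u ∈ blk H i, ((lamR R u * lamR R (2 * n - u) : ℝ) : ℂ)
        = ∑ u ∈ blk H i, ∑ x ∈ M3_T R, ∑ y ∈ M3_T R, ((M3_m x.1 : ℝ) : ℂ) *
            ((M3_m y.1 : ℝ) : ℂ) * Pool.Agent.H92.EH.e ((2 * n : ℕ) * ((y.2 : ℝ) / y.1)) *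
            Pool.Agent.H92.EH.e (u * ((x.2 : ℝ) / x.1 - (y.2 : ℝ) / y.1)) := by
          apply sum_congr rfl
          intro u hu
          rw [Complex.ofReal_mul, M3_lamR, M3_lamR, sum_mul]
          apply sum_congr rfl
          intro x _
          rw [mul_sum]
          apply sum_congr rfl
          intro y _
          have h1 : ((2 * n - u : ℕ) : ℝ) = ((2 * n : ℕ) : ℝ) - u := Nat.cast_sub (hmem u hu)
          have h2 : Pool.Agent.H92.EH.e (u * ((x.2 : ℝ) / x.1)) *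
              Pool.Agent.H92.EH.e ((2 * n - u : ℕ) * ((y.2 : ℝ) / y.1)) =
              Pool.Agent.H92.EH.e ((2 * n : ℕ) * ((y.2 : ℝ) / y.1)) *
              Pool.Agent.H92.EH.e (u * ((x.2 : ℝ) / x.1 - (y.2 : ℝ) / y.1)) := by
            rw [← Pool.Agent.H92.EH.e_add, ← Pool.Agent.H92.EH.e_add, h1]
            congr 1
            ring
          calc ((M3_m x.1 : ℝ) : ℂ) * Pool.Agent.H92.EH.e (u * ((x.2 : ℝ) / x.1)) *
              (((M3_m y.1 : ℝ) : ℂ) * Pool.Agent.H92.EH.e ((2 * n - u : ℕ) * ((y.2 : ℝ) / y.1)))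
              = ((M3_m x.1 : ℝ) : ℂ) * ((M3_m y.1 : ℝ) : ℂ) *
                (Pool.Agent.H92.EH.e (u * ((x.2 : ℝ) / x.1)) *
                  Pool.Agent.H92.EH.e ((2 * n - u : ℕ) * ((y.2 : ℝ) / y.1))) := by ring
            _ = _ := by
              rw [h2]
              ring
      _ = ∑ x ∈ M3_T R, ∑ y ∈ M3_T R, ∑ u ∈ blk H i, ((M3_m x.1 : ℝ) : ℂ) *
            ((M3_m y.1 : ℝ) : ℂ) * Pool.Agent.H92.EH.e ((2 * n : ℕ) * ((y.2 : ℝ) / y.1)) *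
            Pool.Agent.H92.EH.e (u * ((x.2 : ℝ) / x.1 - (y.2 : ℝ) / y.1)) := by
          rw [sum_comm]
          apply sum_congr rfl
          intro x _
          rw [sum_comm]
      _ = _ := by
          apply sum_congr rfl
          intro x _
          apply sum_congr rfl
          intro y _
          rw [mul_sum]
  have hmain : (((H : ℝ) * SR R (2 * n) : ℝ) : ℂ) = ∑ x ∈ M3_T R, ∑ y ∈ M3_T R,
      (if x = y then ((M3_m x.1 : ℝ) : ℂ) * ((M3_m y.1 : ℝ) : ℂ) *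
        Pool.Agent.H92.EH.e ((2 * n : ℕ) * ((y.2 : ℝ) / y.1)) *
        ∑ u ∈ blk H i, Pool.Agent.H92.EH.e (u * ((x.2 : ℝ) / x.1 - (y.2 : ℝ) / y.1)) else 0) := by
    rw [Complex.ofReal_mul, M3_SR, mul_sum]
    apply sum_congr rfl
    intro x hx
    rw [sum_ite_eq, if_pos hx]
    have h1 : ∑ u ∈ blk H i, Pool.Agent.H92.EH.e (u * ((x.2 : ℝ) / x.1 - (x.2 : ℝ) / x.1)) =
        (H : ℂ) := by
      rw [sub_self]
      simp only [mul_zero, Pool.Agent.H92.EH.e_zero, sum_const, hcard, nsmul_eq_mul, mul_one]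
    rw [h1, Complex.ofReal_natCast]
    ring
  have hnorm : |rf H i (lamR R) (lamR R) n - H * SR R (2 * n)| =
      ‖((rf H i (lamR R) (lamR R) n : ℝ) : ℂ) - (((H : ℝ) * SR R (2 * n) : ℝ) : ℂ)‖ := by
    rw [← Complex.ofReal_sub, Complex.norm_real, Real.norm_eq_abs]
  rw [hnorm, hexp, hmain, ← sum_sub_distrib]
  have hpt : ∀ x ∈ M3_T R, ∀ y ∈ M3_T R,
      ‖((M3_m x.1 : ℝ) : ℂ) * ((M3_m y.1 : ℝ) : ℂ) *
        Pool.Agent.H92.EH.e ((2 * n : ℕ) * ((y.2 : ℝ) / y.1)) *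
        ∑ u ∈ blk H i, Pool.Agent.H92.EH.e (u * ((x.2 : ℝ) / x.1 - (y.2 : ℝ) / y.1)) -
        (if x = y then ((M3_m x.1 : ℝ) : ℂ) * ((M3_m y.1 : ℝ) : ℂ) *
        Pool.Agent.H92.EH.e ((2 * n : ℕ) * ((y.2 : ℝ) / y.1)) *
        ∑ u ∈ blk H i, Pool.Agent.H92.EH.e (u * ((x.2 : ℝ) / x.1 - (y.2 : ℝ) / y.1)) else 0)‖ ≤
      |M3_m x.1| * |M3_m y.1| * (R : ℝ) ^ 2 := by
    intro x hx y hy
    by_cases hxy : x = y
    · rw [if_pos hxy, sub_self, norm_zero]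
      positivity
    · rw [if_neg hxy, sub_zero, norm_mul, norm_mul, norm_mul, Complex.norm_real,
        Complex.norm_real, Real.norm_eq_abs, Real.norm_eq_abs, Pool.Agent.H92.EH.norm_e, mul_one]
      refine mul_le_mul_of_nonneg_left ?_ (by positivity)
      obtain ⟨⟨hx1, hx2⟩, hx3⟩ := M3_memT hx
      obtain ⟨⟨hy1, hy2⟩, hy3⟩ := M3_memT hy
      have hne : ¬ (x.1 = y.1 ∧ x.2 = y.2) := by
        rintro ⟨h1, h2⟩
        exact hxy (Sigma.ext h1 (heq_of_eq h2))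
      have hdpos : (0 : ℝ) < x.1 := by exact_mod_cast hx1
      have hcpos : (0 : ℝ) < y.1 := by exact_mod_cast hy1
      have hdR : (x.1 : ℝ) ≤ R := by exact_mod_cast hx2
      have hcR : (y.1 : ℝ) ≤ R := by exact_mod_cast hy2
      have hg := M3_geom H i ((x.2 : ℝ) / x.1 - (y.2 : ℝ) / y.1) (1 / ((x.1 : ℝ) * y.1))
        (by positivity) (Pool.Agent.H92.EH.farey_spacing hx1 hy1 hx3 hy3 hne)
      refine hg.trans ?_
      have h2 : 1 / (2 * (1 / ((x.1 : ℝ) * y.1))) = (x.1 : ℝ) * y.1 / 2 := by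
        field_simp
      rw [h2]
      nlinarith
  have h1 : ‖∑ x ∈ M3_T R, (∑ y ∈ M3_T R, ((M3_m x.1 : ℝ) : ℂ) * ((M3_m y.1 : ℝ) : ℂ) *
        Pool.Agent.H92.EH.e ((2 * n : ℕ) * ((y.2 : ℝ) / y.1)) *
        ∑ u ∈ blk H i, Pool.Agent.H92.EH.e (u * ((x.2 : ℝ) / x.1 - (y.2 : ℝ) / y.1)) -
        ∑ y ∈ M3_T R, (if x = y then ((M3_m x.1 : ℝ) : ℂ) * ((M3_m y.1 : ℝ) : ℂ) *
        Pool.Agent.H92.EH.e ((2 * n : ℕ) * ((y.2 : ℝ) / y.1)) *
        ∑ u ∈ blk H i, Pool.Agent.H92.EH.e (u * ((x.2 : ℝ) / x.1 - (y.2 : ℝ) / y.1)) else 0))‖ ≤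
      ∑ x ∈ M3_T R, ∑ y ∈ M3_T R, |M3_m x.1| * |M3_m y.1| * (R : ℝ) ^ 2 := by
    refine norm_sum_le_of_le _ fun x hx => ?_
    rw [← sum_sub_distrib]
    exact norm_sum_le_of_le _ fun y hy => hpt x hx y hy
  refine h1.trans ?_
  have h2 : ∑ x ∈ M3_T R, ∑ y ∈ M3_T R, |M3_m x.1| * |M3_m y.1| * (R : ℝ) ^ 2 =
      (∑ x ∈ M3_T R, |M3_m x.1|) * (∑ y ∈ M3_T R, |M3_m y.1|) * (R : ℝ) ^ 2 := by
    rw [sum_mul_sum, sum_mul]
    apply sum_congr rfl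
    intro x _
    rw [sum_mul]
  rw [h2]
  have h3 := M3_summ R
  have h4 : 0 ≤ ∑ x ∈ M3_T R, |M3_m x.1| := sum_nonneg fun x _ => abs_nonneg _
  have h5 : (∑ x ∈ M3_T R, |M3_m x.1|) * (∑ y ∈ M3_T R, |M3_m y.1|) ≤ (R : ℝ) * R :=
    mul_le_mul h3 h3 h4 (Nat.cast_nonneg R)
  calc (∑ x ∈ M3_T R, |M3_m x.1|) * (∑ y ∈ M3_T R, |M3_m y.1|) * (R : ℝ) ^ 2
      ≤ ((R : ℝ) * R) * (R : ℝ) ^ 2 := mul_le_mul_of_nonneg_right h5 (by positivity)
    _ = (R : ℝ) ^ 4 := by ring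

end Pool.Agent.H43.TP
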