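import Pool.Agent.H43.TP.Defs

/-!
# TP PPx: proper prime powers are rare

Every `n` of `ppX N H` is within `2H` of a proper prime power `m ≤ 2N + 2H ≤ 4N`; there are at most `√(4N) log_2(4N)` of them
(`m = p^j`, `2 ≤ j ≤ log_2 (4N)`, `p ≤ √(4N)`), so the set has at most `(4H+1) √(4N) log_2(4N) ≤ N/L^A` elements as `θ < 1/2`.
-/

set_option autoImplicit false

namespace Pool.Agent.H43.TP

open Finset
open Pool.Agent.H43.MP (blk Hn idx Rn)

open Pool.Agent.H91.EHA (Lam)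

/-- the von Mangoldt function on the non-primes -/
private noncomputable def PPx_L2 (n : ℕ) : ℝ := if n.Prime then 0 else Lam n

private theorem PPx_L2_nn (n : ℕ) : 0 ≤ PPx_L2 n := by
  unfold PPx_L2
  split_ifs
  · exact le_rfl
  · exact ArithmeticFunction.vonMangoldt_nonneg

private theorem PPx_sum2 (x : ℕ) (hx : 1 ≤ x) :
    ∑ n ∈ Ioc 0 x, PPx_L2 n ≤ 2 * Real.sqrt x * Real.log x := by
  have h1 := Chebyshev.psi_sub_theta_le (x := (x : ℝ)) (by exact_mod_cast hx)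
  rw [Chebyshev.psi_sub_theta_eq_sum_not_prime, Nat.floor_natCast] at h1
  refine le_trans (le_of_eq ?_) h1
  rw [sum_filter]
  refine sum_congr rfl fun n _ => ?_
  unfold PPx_L2
  by_cases hn : n.Prime
  · rw [if_pos hn, if_neg (not_not.2 hn)]
  · rw [if_neg hn, if_pos hn]
    rfl

open Classical in
/-- the proper prime powers up to `y` -/
private noncomputable def PPx_S (y : ℕ) : Finset ℕ :=
  (Ioc 0 y).filter (fun m => IsPrimePow m ∧ ¬ m.Prime)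

private theorem PPx_Lam_ge (m : ℕ) (h : IsPrimePow m) : Real.log 2 ≤ Lam m := by
  unfold Lam
  rw [ArithmeticFunction.vonMangoldt_apply, if_pos h]
  have h2 : 2 ≤ m.minFac := (Nat.minFac_prime h.ne_one).two_le
  exact Real.log_le_log (by norm_num) (by exact_mod_cast h2)

private theorem PPx_card_S (y : ℕ) :
    ((PPx_S y).card : ℝ) ≤ 4 * Real.sqrt y * Real.log y := by
  rcases Nat.eq_zero_or_pos y with hy | hy
  · subst hy
    simp [PPx_S]
  have h1 : ((PPx_S y).card : ℝ) * Real.log 2 ≤ ∑ n ∈ Ioc 0 y, PPx_L2 n := by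
    calc ((PPx_S y).card : ℝ) * Real.log 2 = ∑ _n ∈ PPx_S y, Real.log 2 := by
          rw [sum_const, nsmul_eq_mul]
      _ ≤ ∑ n ∈ PPx_S y, PPx_L2 n := by
          refine sum_le_sum fun n hn => ?_
          unfold PPx_S at hn
          rw [mem_filter] at hn
          unfold PPx_L2
          rw [if_neg hn.2.2]
          exact PPx_Lam_ge n hn.2.1
      _ ≤ ∑ n ∈ Ioc 0 y, PPx_L2 n :=
          sum_le_sum_of_subset_of_nonneg (filter_subset _ _) fun m _ _ => PPx_L2_nn m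
  have h2 := PPx_sum2 y hy
  have h3 : (1 / 2 : ℝ) ≤ Real.log 2 := by
    have := Real.log_two_gt_d9
    linarith
  have h4 : ((PPx_S y).card : ℝ) * (1 / 2) ≤ ((PPx_S y).card : ℝ) * Real.log 2 :=
    mul_le_mul_of_nonneg_left h3 (Nat.cast_nonneg _)
  linarith

private theorem PPx_card {N H : ℕ} (hHN : H ≤ N) :
    ((ppX N H).card : ℝ) ≤ (PPx_S (4 * N)).card * (4 * H + 1) := by
  have hsub : ppX N H ⊆ (PPx_S (4 * N)).biUnion (fun m => Icc (m - 2 * H) (m + 2 * H)) := by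
    intro n hn
    unfold ppX at hn
    simp only [mem_filter, mem_Ioc] at hn
    obtain ⟨⟨hn1, hn2⟩, m, hm1, hm2, h1, h2⟩ := hn
    rw [mem_biUnion]
    refine ⟨m, ?_, ?_⟩
    · unfold PPx_S
      rw [mem_filter, mem_Ioc]
      have := h1.pos
      exact ⟨by omega, h1, h2⟩
    · rw [mem_Icc]
      omega
  have h1 := card_le_card hsub
  have h2 : ((PPx_S (4 * N)).biUnion (fun m => Icc (m - 2 * H) (m + 2 * H))).card ≤
      (PPx_S (4 * N)).card * (4 * H + 1) := by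
    refine card_biUnion_le_card_mul _ _ _ fun m _ => ?_
    rw [Nat.card_Icc]
    omega
  exact_mod_cast h1.trans h2

theorem ppX_card (θ : ℝ) (h0 : 0 < θ) (h1 : θ ≤ 1 / 3) (A : ℕ) : ∃ N0 : ℕ, ∀ N : ℕ, N0 ≤ N →
    ((ppX N (Hn θ N)).card : ℝ) ≤ N / Real.log N ^ A := by
  have hlo := (isLittleO_log_rpow_rpow_atTop ((A : ℝ) + 1) (show (0 : ℝ) < 1 / 6 by norm_num)).bound
    (show (0 : ℝ) < 1 / 100 by norm_num)
  have hev := tendsto_natCast_atTop_atTop.eventually hlo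
  obtain ⟨N1, hN1⟩ := Filter.eventually_atTop.1 hev
  refine ⟨max N1 4, fun N hN => ?_⟩
  have hN3 : 4 ≤ N := (le_max_right _ _).trans hN
  have hb := hN1 N ((le_max_left _ _).trans hN)
  have hNr : (4 : ℝ) ≤ N := by exact_mod_cast hN3
  have hN0 : (0 : ℝ) < N := by linarith
  have hN1r : (1 : ℝ) ≤ N := by linarith
  obtain ⟨L, hL⟩ : ∃ L, L = Real.log N := ⟨_, rfl⟩
  have hL1 : 1 ≤ L := by
    rw [hL, Real.le_log_iff_exp_le hN0]
    have := Real.exp_one_lt_d9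
    linarith
  rw [← hL]
  have hL0 : 0 < L := by linarith
  have hb2 : L ^ (A + 1) ≤ 1 / 100 * (N : ℝ) ^ (1 / 6 : ℝ) := by
    rw [← hL, Real.norm_of_nonneg (Real.rpow_nonneg hL0.le _),
      Real.norm_of_nonneg (Real.rpow_nonneg hN0.le _)] at hb
    have e : L ^ ((A : ℝ) + 1) = L ^ (A + 1) := by
      rw [← Real.rpow_natCast]
      push_cast
      rfl
    rw [e] at hb
    exact hb
  obtain ⟨H, hH⟩ : ∃ H, H = Hn θ N := ⟨_, rfl⟩
  rw [← hH]
  have hHle : (H : ℝ) ≤ (N : ℝ) ^ (1 / 3 : ℝ) := by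
    rw [hH]
    unfold Hn
    exact (Nat.floor_le (Real.rpow_nonneg hN0.le _)).trans
      (Real.rpow_le_rpow_of_exponent_le hN1r h1)
  have hHN : H ≤ N := by
    have : (H : ℝ) ≤ N := hHle.trans (by
      calc (N : ℝ) ^ (1 / 3 : ℝ) ≤ (N : ℝ) ^ (1 : ℝ) :=
            Real.rpow_le_rpow_of_exponent_le hN1r (by norm_num)
        _ = N := Real.rpow_one _)
    exact_mod_cast this
  have hc := PPx_card hHN
  have hlog : Real.log (4 * N) ≤ 2 * L := by
    rw [Real.log_mul (by norm_num) hN0.ne', ← hL]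
    have : Real.log 4 ≤ L := by
      rw [hL]
      exact Real.log_le_log (by norm_num) hNr
    linarith
  have hsq : Real.sqrt (4 * N) = 2 * (N : ℝ) ^ (1 / 2 : ℝ) := by
    rw [Real.sqrt_mul (by norm_num), Real.sqrt_eq_rpow (N : ℝ)]
    have : Real.sqrt 4 = 2 := by
      rw [show (4 : ℝ) = 2 ^ 2 by norm_num]
      exact Real.sqrt_sq (by norm_num)
    rw [this]
  have hc1 : ((PPx_S (4 * N)).card : ℝ) ≤ 16 * (N : ℝ) ^ (1 / 2 : ℝ) * L := by
    have h2 := PPx_card_S (4 * N)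
    push_cast at h2
    rw [hsq] at h2
    refine h2.trans ?_
    have h3 : 0 ≤ 4 * (2 * (N : ℝ) ^ (1 / 2 : ℝ)) := by positivity
    calc 4 * (2 * (N : ℝ) ^ (1 / 2 : ℝ)) * Real.log (4 * N)
        ≤ 4 * (2 * (N : ℝ) ^ (1 / 2 : ℝ)) * (2 * L) := mul_le_mul_of_nonneg_left hlog h3
      _ = 16 * (N : ℝ) ^ (1 / 2 : ℝ) * L := by ring
  have hH1r : (1 : ℝ) ≤ (N : ℝ) ^ (1 / 3 : ℝ) := Real.one_le_rpow hN1r (by norm_num)
  have hH2 : 4 * (H : ℝ) + 1 ≤ 5 * (N : ℝ) ^ (1 / 3 : ℝ) := by linarith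
  rw [le_div_iff₀ (by positivity)]
  have hLA : 0 < L ^ A := by positivity
  have hNN : (N : ℝ) ^ (1 / 2 : ℝ) * (N : ℝ) ^ (1 / 3 : ℝ) * (N : ℝ) ^ (1 / 6 : ℝ) = N := by
    rw [← Real.rpow_add hN0, ← Real.rpow_add hN0]
    norm_num
  calc ((ppX N H).card : ℝ) * L ^ A
      ≤ ((PPx_S (4 * N)).card * (4 * H + 1)) * L ^ A := mul_le_mul_of_nonneg_right hc hLA.le
    _ ≤ (16 * (N : ℝ) ^ (1 / 2 : ℝ) * L * (5 * (N : ℝ) ^ (1 / 3 : ℝ))) * L ^ A := by
        refine mul_le_mul_of_nonneg_right ?_ hLA.le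
        exact mul_le_mul hc1 hH2 (by positivity) (by positivity)
    _ = 80 * (N : ℝ) ^ (1 / 2 : ℝ) * (N : ℝ) ^ (1 / 3 : ℝ) * L ^ (A + 1) := by ring
    _ ≤ 80 * (N : ℝ) ^ (1 / 2 : ℝ) * (N : ℝ) ^ (1 / 3 : ℝ) * (1 / 100 * (N : ℝ) ^ (1 / 6 : ℝ)) := by
        gcongr
    _ = 80 / 100 * ((N : ℝ) ^ (1 / 2 : ℝ) * (N : ℝ) ^ (1 / 3 : ℝ) * (N : ℝ) ^ (1 / 6 : ℝ)) := by
        ring
    _ = 80 / 100 * N := by rw [hNN]
    _ ≤ N := by linarith

end Pool.Agent.H43.TP
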