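import Pool.Agent.H43.TP.Defs

/-!
# TP RefN: the primes of the reflected blocks `2n - blk H (n/H)` for almost all `n`

For `i = n/H`: `{2n - u : u ∈ blk H i} = Ioc x (x + H)` with `x = 2n - (i+1) H` (`1 ≤ i`).  The map `n ↦ x` is injective on every
block and `x ∈ [(i-1)H, (i+1)H)`, so every `x` is taken at most twice; `N/2 ≤ N - 2H < x ≤ 2N`.
`HUX θ'` (with `N/2` and `N`, exponents `A' , B'` large) and Chebyshev's inequality for every `r ≤ L^B` and class `c mod r`: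
`|∑_{v ∈ Ioc x (x+H), v = c (r)} Λ(v) - [(c,r)=1] H/φ(r)| ≤ H/L^{A+B+1}` outside `N/L^{A+2B+1}` of the `n`; sum over the classes against
`e(-a c/r)` (as in `Blk_twist`, `badP_card` in `H43/MP/Blk.lean`; `∑_{c, (c,r)=1} e(-ac/r) = μ(r)`).
-/

set_option autoImplicit false

namespace Pool.Agent.H43.TP

open Finset
open Pool.Agent.H43.MP (blk Hn idx Rn badP HUX)
open Pool.Agent.H91.PK (ee)
open Pool.Agent.H91.EHA (Lam ramS)

/-- the four dyadic ranges -/
private theorem RefN_cover (F : ℕ → ℝ) (K : ℕ) :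
    ∑ x ∈ Ioc K (16 * K), F x = ∑ x ∈ Ioc K (2 * K), F x + ∑ x ∈ Ioc (2 * K) (2 * (2 * K)), F x +
      ∑ x ∈ Ioc (4 * K) (2 * (4 * K)), F x + ∑ x ∈ Ioc (8 * K) (2 * (8 * K)), F x := by
  have h1 := Finset.sum_Ioc_consecutive F (show K ≤ 2 * K by omega) (show 2 * K ≤ 4 * K by omega)
  have h2 := Finset.sum_Ioc_consecutive F (show K ≤ 4 * K by omega) (show 4 * K ≤ 8 * K by omega)
  have h3 := Finset.sum_Ioc_consecutive F (show K ≤ 8 * K by omega) (show 8 * K ≤ 16 * K by omega)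
  have e1 : 2 * (2 * K) = 4 * K := by omega
  have e2 : 2 * (4 * K) = 8 * K := by omega
  have e3 : 2 * (8 * K) = 16 * K := by omega
  rw [e1, e2, e3]
  linarith

private theorem RefN_ev_H1 {θ θ' : ℝ} (h0 : 0 < θ') (h1 : θ' < θ) :
    ∀ᶠ N : ℕ in Filter.atTop, (2 * (N : ℝ)) ^ θ' ≤ Hn θ N := by
  have h2 : Filter.Tendsto (fun N : ℕ => (N : ℝ) ^ (θ - θ')) Filter.atTop Filter.atTop :=
    (tendsto_rpow_atTop (by linarith : 0 < θ - θ')).comp tendsto_natCast_atTop_atTop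
  have h3 : Filter.Tendsto (fun N : ℕ => (N : ℝ) ^ θ) Filter.atTop Filter.atTop :=
    (tendsto_rpow_atTop (by linarith : 0 < θ)).comp tendsto_natCast_atTop_atTop
  filter_upwards [h2.eventually_ge_atTop (2 * 2 ^ θ'), h3.eventually_ge_atTop 2,
    Filter.eventually_ge_atTop 1] with N hN1 hN2 hN3
  have hN0 : (0 : ℝ) < N := by exact_mod_cast hN3
  have h4 : (N : ℝ) ^ θ = N ^ θ' * N ^ (θ - θ') := by
    rw [← Real.rpow_add hN0]
    congr 1
    ring
  have h5 : (N : ℝ) ^ θ - 1 ≤ Hn θ N := by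
    unfold Pool.Agent.H43.MP.Hn
    have := Nat.lt_floor_add_one ((N : ℝ) ^ θ)
    linarith
  have h6 : (2 * (N : ℝ)) ^ θ' = 2 ^ θ' * N ^ θ' := Real.mul_rpow (by norm_num) hN0.le
  have h7 : 0 < (N : ℝ) ^ θ' := Real.rpow_pos_of_pos hN0 _
  have h8 : (N : ℝ) ^ θ' * (2 * 2 ^ θ') ≤ N ^ θ := by
    rw [h4]
    exact mul_le_mul_of_nonneg_left hN1 h7.le
  rw [h6]
  nlinarith


private theorem RefN_ev_H2 {θ : ℝ} (h0 : 0 < θ) (h2 : θ < 1 / 3) :
    ∀ᶠ N : ℕ in Filter.atTop, 1 ≤ Hn θ N ∧ 16 * (Hn θ N + 20) ≤ N := by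
  have h3 : Filter.Tendsto (fun N : ℕ => (N : ℝ) ^ (2 / 3 : ℝ)) Filter.atTop Filter.atTop :=
    (tendsto_rpow_atTop (by norm_num)).comp tendsto_natCast_atTop_atTop
  filter_upwards [h3.eventually_ge_atTop 32, Filter.eventually_ge_atTop 640] with N hN1 hN2
  have hN1' : (1 : ℝ) ≤ N := by exact_mod_cast (by omega : 1 ≤ N)
  have hN0 : (0 : ℝ) < N := by linarith
  have h4 : (Hn θ N : ℝ) ≤ (N : ℝ) ^ θ := Nat.floor_le (by positivity)
  have h5 : (N : ℝ) ^ θ ≤ (N : ℝ) ^ (1 / 3 : ℝ) := Real.rpow_le_rpow_of_exponent_le hN1' h2.le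
  have h6 : (N : ℝ) = (N : ℝ) ^ (1 / 3 : ℝ) * (N : ℝ) ^ (2 / 3 : ℝ) := by
    rw [← Real.rpow_add hN0]
    norm_num
  have h7 : 0 < (N : ℝ) ^ (1 / 3 : ℝ) := Real.rpow_pos_of_pos hN0 _
  have h8 : 32 * (N : ℝ) ^ (1 / 3 : ℝ) ≤ N := by
    calc 32 * (N : ℝ) ^ (1 / 3 : ℝ) = (N : ℝ) ^ (1 / 3 : ℝ) * 32 := mul_comm _ _
      _ ≤ (N : ℝ) ^ (1 / 3 : ℝ) * (N : ℝ) ^ (2 / 3 : ℝ) := mul_le_mul_of_nonneg_left hN1 h7.le
      _ = N := h6.symm
  constructor
  · unfold Pool.Agent.H43.MP.Hn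
    rw [Nat.one_le_floor_iff]
    exact Real.one_le_rpow hN1' h0.le
  · have h9 : 16 * ((Hn θ N : ℝ) + 20) ≤ N := by
      have : (640 : ℝ) ≤ N := by exact_mod_cast hN2
      linarith
    exact_mod_cast h9

private theorem RefN_third {θ : ℝ} (h2 : θ < 1 / 3) :
    ∀ᶠ N : ℕ in Filter.atTop, ∀ K : ℕ, N ≤ 8 * K → (Hn θ N : ℝ) ≤ (K : ℝ) ^ (1 / 3 : ℝ) := by
  have h3 : Filter.Tendsto (fun N : ℕ => (N : ℝ) ^ (1 / 3 - θ)) Filter.atTop Filter.atTop :=
    (tendsto_rpow_atTop (by linarith)).comp tendsto_natCast_atTop_atTop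
  filter_upwards [h3.eventually_ge_atTop 2, Filter.eventually_ge_atTop 1] with N hN1 hN2 K hK
  have hN0 : (0 : ℝ) < N := by exact_mod_cast hN2
  have a1 : (Hn θ N : ℝ) ≤ (N : ℝ) ^ θ := Nat.floor_le (by positivity)
  have a3 : (N : ℝ) / 8 ≤ K := by
    have h5 : (N : ℝ) ≤ 8 * K := by exact_mod_cast hK
    linarith
  have a4 : ((N : ℝ) / 8) ^ (1 / 3 : ℝ) ≤ (K : ℝ) ^ (1 / 3 : ℝ) :=
    Real.rpow_le_rpow (by positivity) a3 (by norm_num)
  have a5 : ((N : ℝ) / 8) ^ (1 / 3 : ℝ) = (N : ℝ) ^ (1 / 3 : ℝ) / 2 := by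
    rw [Real.div_rpow hN0.le (by norm_num)]
    congr 1
    rw [show (8 : ℝ) = 2 ^ (3 : ℝ) by norm_num, ← Real.rpow_mul (by norm_num)]
    norm_num
  have a6 : (N : ℝ) ^ (1 / 3 : ℝ) = (N : ℝ) ^ θ * (N : ℝ) ^ (1 / 3 - θ) := by
    rw [← Real.rpow_add hN0]
    congr 1
    ring
  have a8 : (0 : ℝ) ≤ (N : ℝ) ^ θ := by positivity
  have a9 : (N : ℝ) ^ θ * 2 ≤ (N : ℝ) ^ θ * (N : ℝ) ^ (1 / 3 - θ) :=
    mul_le_mul_of_nonneg_left hN1 a8
  linarith

private theorem RefN_ev_log (K : ℝ) : ∀ᶠ N : ℕ in Filter.atTop, K ≤ Real.log N :=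
  (Real.tendsto_log_atTop.comp tendsto_natCast_atTop_atTop).eventually_ge_atTop K

/-- one application of `HUX` -/
private theorem RefN_app {N K H d A B : ℕ} {S : ℝ} (hlog : Real.log N / 2 ≤ Real.log K)
    (hlog2 : 4 ≤ Real.log N)
    (hd : (d : ℝ) ≤ Real.log N ^ B)
    (hS : (d : ℝ) ≤ Real.log K ^ (2 * B) → S ≤ K * (H : ℝ) ^ 2 / Real.log K ^ A) :
    S ≤ K * (H : ℝ) ^ 2 * 2 ^ A / Real.log N ^ A := by
  have h1 : 2 ≤ Real.log K := by linarith
  have h2 : (d : ℝ) ≤ Real.log K ^ (2 * B) := by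
    calc (d : ℝ) ≤ Real.log N ^ B := hd
      _ ≤ (Real.log K * Real.log K) ^ B := by
          refine pow_le_pow_left₀ (by linarith) ?_ B
          nlinarith
      _ = Real.log K ^ (2 * B) := by
          rw [← pow_two, ← pow_mul]
  refine (hS h2).trans ?_
  have h3 : 0 < Real.log N := by linarith
  have h4 : (Real.log N / 2) ^ A ≤ Real.log K ^ A := pow_le_pow_left₀ (by linarith) hlog A
  have h5 : K * (H : ℝ) ^ 2 * 2 ^ A / Real.log N ^ A = K * (H : ℝ) ^ 2 / (Real.log N / 2) ^ A := by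
    rw [div_pow]
    field_simp
  rw [h5]
  exact div_le_div_of_nonneg_left (by positivity) (by positivity) h4

/-- the representative of `m` in `[1, r]` -/
private def RefN_kap (r m : ℕ) : ℕ := if m % r = 0 then r else m % r

private theorem RefN_kap_mem {r : ℕ} (hr : 1 ≤ r) (m : ℕ) : RefN_kap r m ∈ Icc 1 r := by
  unfold RefN_kap
  have := Nat.mod_lt m (by omega : 0 < r)
  rw [mem_Icc]
  split_ifs <;> omega

private theorem RefN_kap_eq {r : ℕ} {m c : ℕ} (hc : c ∈ Icc 1 r) :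
    RefN_kap r m = c ↔ m % r = c % r := by
  rw [mem_Icc] at hc
  unfold RefN_kap
  rcases Nat.lt_or_ge c r with h | h
  · rw [Nat.mod_eq_of_lt h]
    split_ifs with h1
    · omega
    · rfl
  · have h2 : c = r := by omega
    rw [h2, Nat.mod_self]
    have := Nat.mod_lt m (by omega : 0 < r)
    split_ifs with h1
    · simp [h1]
    · constructor
      · intro h3
        omega
      · intro h3
        exact absurd h3 h1

private theorem RefN_ee_int (t : ℝ) (k : ℤ) : ee (t + k) = ee t := by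
  unfold Pool.Agent.H91.PK.ee
  have e : 2 * Real.pi * ((t + k : ℝ) : ℂ) * Complex.I =
      2 * Real.pi * (t : ℂ) * Complex.I + k * (2 * Real.pi * Complex.I) := by
    push_cast
    ring
  rw [e, Complex.exp_add, Complex.exp_int_mul_two_pi_mul_I, mul_one]

private theorem RefN_ee_norm (t : ℝ) : ‖ee t‖ = 1 := by
  unfold Pool.Agent.H91.PK.ee
  have e : 2 * Real.pi * (t : ℂ) * Complex.I = ((2 * Real.pi * t : ℝ) : ℂ) * Complex.I := by
    push_cast
    ring
  rw [e, Complex.norm_exp_ofReal_mul_I]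

private theorem RefN_ee_neg (t : ℝ) : ee (-t) = (starRingEnd ℂ) (ee t) := by
  unfold Pool.Agent.H91.PK.ee
  rw [← Complex.exp_conj]
  congr 1
  simp only [map_mul, Complex.conj_ofReal, Complex.conj_I, map_ofNat]
  push_cast
  ring

private theorem RefN_ee_mod {r m c : ℕ} (a : ℕ) (hr : 1 ≤ r) (h : m % r = c % r) :
    ee (-((a : ℝ) * m / r)) = ee (-((a : ℝ) * c / r)) := by
  have hr0 : (r : ℝ) ≠ 0 := by exact_mod_cast (by omega : r ≠ 0)
  have h1 : (r : ℤ) ∣ (m : ℤ) - c := by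
    have : c ≡ m [MOD r] := h.symm
    exact (Nat.modEq_iff_dvd.mp this)
  obtain ⟨k, hk⟩ := h1
  have h2 : (m : ℝ) = c + r * k := by
    have : ((m : ℤ) : ℝ) = ((c + r * k : ℤ) : ℝ) := by
      congr 1
      linarith
    push_cast at this
    exact this
  have h3 : -((a : ℝ) * m / r) = -((a : ℝ) * c / r) + ((-(a * k) : ℤ) : ℝ) := by
    rw [h2]
    push_cast
    field_simp
    ring
  rw [h3, RefN_ee_int]

/-- the Ramanujan sum -/
private theorem RefN_ram {a r : ℕ} (hr : 1 ≤ r) (har : Nat.Coprime a r) :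
    ∑ c ∈ (Icc 1 r).filter (fun c => Nat.Coprime c r), ee (-((a : ℝ) * c / r)) =
      ((ArithmeticFunction.moebius r : ℝ) : ℂ) := by
  have h1 := Pool.Agent.H91.EHA.ramS_eq r a hr
  have h2 : ramS r a = (ArithmeticFunction.moebius r : ℝ) := by
    unfold Pool.Agent.H91.EHA.ramS
    rw [Nat.Coprime.gcd_eq_one har.symm]
    simp
  rw [h2] at h1
  have h3 := congrArg (starRingEnd ℂ) h1
  rw [Complex.conj_ofReal, map_sum] at h3
  rw [h3]
  refine Finset.sum_congr rfl fun c _ => ?_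
  rw [RefN_ee_neg]


/-- the twist of a finite set, from the classes -/
private theorem RefN_twist {S : Finset ℕ} {H : ℕ} {a r : ℕ} {ε : ℝ} (hr : 1 ≤ r) (har : Nat.Coprime a r)
    (h : ∀ c ∈ Icc 1 r, |(∑ n ∈ S.filter (fun n => n % r = c % r), Lam n)
          - (if Nat.Coprime c r then (H : ℝ) / r.totient else 0)| ≤ ε) :
    ‖∑ m ∈ S, ((Lam m : ℝ) : ℂ) * ee (-((a : ℝ) * m / r))
      - (((ArithmeticFunction.moebius r : ℝ) / (r.totient : ℝ) * H : ℝ) : ℂ)‖ ≤ r * ε := by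
  have h1 : ∑ m ∈ S, ((Lam m : ℝ) : ℂ) * ee (-((a : ℝ) * m / r)) =
      ∑ c ∈ Icc 1 r, ee (-((a : ℝ) * c / r)) *
        ((∑ n ∈ S.filter (fun n => n % r = c % r), Lam n : ℝ) : ℂ) := by
    rw [← Finset.sum_fiberwise_of_maps_to (s := S) (t := Icc 1 r) (g := RefN_kap r)
      (fun m _ => RefN_kap_mem hr m)]
    refine Finset.sum_congr rfl fun c hc => ?_
    have e1 : S.filter (fun m => RefN_kap r m = c) =
        S.filter (fun n => n % r = c % r) := by
      ext m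
      simp only [Finset.mem_filter, RefN_kap_eq hc]
    rw [e1]
    push_cast
    rw [Finset.mul_sum]
    refine Finset.sum_congr rfl fun m hm => ?_
    rw [RefN_ee_mod a hr (Finset.mem_filter.mp hm).2]
    ring
  have h2 : (((ArithmeticFunction.moebius r : ℝ) / (r.totient : ℝ) * H : ℝ) : ℂ) =
      ∑ c ∈ Icc 1 r, ee (-((a : ℝ) * c / r)) *
        ((if Nat.Coprime c r then (H : ℝ) / r.totient else 0 : ℝ) : ℂ) := by
    have e1 : ∑ c ∈ Icc 1 r, ee (-((a : ℝ) * c / r)) *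
        ((if Nat.Coprime c r then (H : ℝ) / r.totient else 0 : ℝ) : ℂ) =
        ∑ c ∈ (Icc 1 r).filter (fun c => Nat.Coprime c r), ee (-((a : ℝ) * c / r)) *
          (((H : ℝ) / r.totient : ℝ) : ℂ) := by
      rw [Finset.sum_filter]
      refine Finset.sum_congr rfl fun c _ => ?_
      split_ifs <;> simp
    rw [e1, ← Finset.sum_mul, RefN_ram hr har]
    push_cast
    ring
  rw [h1, h2, ← Finset.sum_sub_distrib]
  calc ‖∑ c ∈ Icc 1 r, (ee (-((a : ℝ) * c / r)) *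
        ((∑ n ∈ S.filter (fun n => n % r = c % r), Lam n : ℝ) : ℂ) -
        ee (-((a : ℝ) * c / r)) *
        ((if Nat.Coprime c r then (H : ℝ) / r.totient else 0 : ℝ) : ℂ))‖
      ≤ ∑ _c ∈ Icc 1 r, ε := by
        refine norm_sum_le_of_le _ fun c hc => ?_
        rw [← mul_sub, norm_mul, RefN_ee_norm, one_mul, ← Complex.ofReal_sub, Complex.norm_real,
          Real.norm_eq_abs]
        exact h c hc
    _ = r * ε := by
        rw [Finset.sum_const, Nat.card_Icc, nsmul_eq_mul]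
        congr 2


/-- the left end of the reflected block -/
private def RefN_x (H n : ℕ) : ℕ := 2 * n - (n / H + 1) * H

private theorem RefN_x_bounds {H n : ℕ} (hH : 1 ≤ H) (hn : H ≤ n) :
    n < RefN_x H n + H + 1 ∧ RefN_x H n < n ∧ RefN_x H n + (n / H + 1) * H = 2 * n := by
  unfold RefN_x
  have h1 : n / H * H ≤ n := Nat.div_mul_le_self n H
  have h2 : n < n / H * H + H := Nat.lt_div_mul_add (by omega)
  have h3 : (n / H + 1) * H = n / H * H + H := by ring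
  omega

/-- reflection of the block -/
private theorem RefN_reindex {H n : ℕ} (hH : 1 ≤ H) (hn : H ≤ n) (f : ℕ → ℂ) :
    ∑ u ∈ blk H (n / H), f (2 * n - u) = ∑ v ∈ Ioc (RefN_x H n) (RefN_x H n + H), f v := by
  obtain ⟨_, _, h3⟩ := RefN_x_bounds hH hn
  have h4 : (n / H + 1) * H = n / H * H + H := by ring
  have h1 : n / H * H ≤ n := Nat.div_mul_le_self n H
  refine Finset.sum_nbij' (fun u => 2 * n - u) (fun v => 2 * n - v) ?_ ?_ ?_ ?_ ?_
  · intro u hu
    unfold Pool.Agent.H43.MP.blk at hu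
    rw [mem_Ico] at hu
    rw [mem_Ioc]
    omega
  · intro v hv
    rw [mem_Ioc] at hv
    unfold Pool.Agent.H43.MP.blk
    rw [mem_Ico]
    omega
  · intro u hu
    unfold Pool.Agent.H43.MP.blk at hu
    rw [mem_Ico] at hu
    show 2 * n - (2 * n - u) = u
    omega
  · intro v hv
    rw [mem_Ioc] at hv
    show 2 * n - (2 * n - v) = v
    omega
  · intro u _
    rfl

/-- every left end is taken at most twice -/
private theorem RefN_fiber {H : ℕ} (hH : 1 ≤ H) (s : Finset ℕ) (hs : ∀ n ∈ s, H ≤ n) (x : ℕ) :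
    (s.filter (fun n => RefN_x H n = x)).card ≤ 2 := by
  have hsub : s.filter (fun n => RefN_x H n = x) ⊆
      {(x + (x / H + 1) * H) / 2, (x + (x / H + 2) * H) / 2} := by
    intro n hn
    rw [Finset.mem_filter] at hn
    obtain ⟨hn1, hn2⟩ := hn
    have hHn := hs n hn1
    obtain ⟨_, _, h3⟩ := RefN_x_bounds hH hHn
    rw [hn2] at h3
    have h1 : n / H * H ≤ n := Nat.div_mul_le_self n H
    have h2 : n < n / H * H + H := Nat.lt_div_mul_add (by omega)
    have h4 : (n / H + 1) * H = n / H * H + H := by ring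
    have h5 : 1 ≤ n / H := (Nat.one_le_div_iff (by omega)).mpr hHn
    have h6 : n / H - 1 ≤ x / H := by
      rw [Nat.le_div_iff_mul_le (by omega), Nat.sub_mul]
      omega
    have h7 : x / H < n / H + 1 := by
      rw [Nat.div_lt_iff_lt_mul (by omega)]
      omega
    have h8 : x / H + 1 = n / H + 1 ∨ x / H + 2 = n / H + 1 := by omega
    rw [Finset.mem_insert, Finset.mem_singleton]
    rcases h8 with h8 | h8
    · left
      rw [h8]
      omega
    · right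
      rw [h8]
      omega
  exact (Finset.card_le_card hsub).trans Finset.card_le_two

/-- the number of the `n` with a bad reflected block, from the mean square -/
private theorem RefN_count (G : ℕ → ℝ) (hG : ∀ x, 0 ≤ G x) (bad : Finset ℕ) (H K : ℕ) {g : ℝ}
    (hH : 1 ≤ H) (hg : 0 ≤ g) (hi : ∀ n ∈ bad, H ≤ n ∧ K + 1 ≤ RefN_x H n ∧ RefN_x H n ≤ 16 * K)
    (hb : ∀ n ∈ bad, g ≤ G (RefN_x H n)) :
    bad.card * g ≤ 2 * ∑ x ∈ Ioc K (16 * K), G x := by
  classical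
  have h1 : bad.card ≤ 2 * (bad.image (RefN_x H)).card :=
    Finset.card_le_mul_card_image bad 2 fun x _ => RefN_fiber hH bad (fun n hn => (hi n hn).1) x
  have h2 : ((bad.image (RefN_x H)).card : ℝ) * g ≤ ∑ x ∈ Ioc K (16 * K), G x := by
    calc ((bad.image (RefN_x H)).card : ℝ) * g = ∑ _x ∈ bad.image (RefN_x H), g := by
          rw [Finset.sum_const, nsmul_eq_mul]
      _ ≤ ∑ x ∈ bad.image (RefN_x H), G x := by
          refine Finset.sum_le_sum fun x hx => ?_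
          obtain ⟨n, hn, rfl⟩ := Finset.mem_image.mp hx
          exact hb n hn
      _ ≤ ∑ x ∈ Ioc K (16 * K), G x := by
          refine Finset.sum_le_sum_of_subset_of_nonneg ?_ fun x _ _ => hG x
          intro x hx
          obtain ⟨n, hn, rfl⟩ := Finset.mem_image.mp hx
          obtain ⟨_, h3, h4⟩ := hi n hn
          rw [mem_Ioc]
          omega
  have h3 : (bad.card : ℝ) ≤ 2 * ((bad.image (RefN_x H)).card : ℝ) := by exact_mod_cast h1
  calc (bad.card : ℝ) * g ≤ 2 * ((bad.image (RefN_x H)).card : ℝ) * g :=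
        mul_le_mul_of_nonneg_right h3 hg
    _ = 2 * (((bad.image (RefN_x H)).card : ℝ) * g) := by ring
    _ ≤ _ := by linarith

/-- the final inequality of the count -/
private theorem RefN_arith {E N H l : ℝ} {A A' : ℕ} (hH : 0 < H)
    (hN : 0 ≤ N) (hl : 8 * 2 ^ (A + 2 * A' + 1) ≤ l)
    (h : E * (H / l ^ A') ^ 2 ≤
      2 * (4 * N * H ^ 2 * 2 ^ (A + 2 * A' + 1) / l ^ (A + 2 * A' + 1))) :
    E ≤ N / l ^ A := by
  have hl0 : 0 < l := lt_of_lt_of_le (by positivity) hl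
  have e2 : 2 * (4 * N * H ^ 2 * 2 ^ (A + 2 * A' + 1) / l ^ (A + 2 * A' + 1)) =
      (N / l ^ A * (8 * 2 ^ (A + 2 * A' + 1) / l)) * (H / l ^ A') ^ 2 := by
    have : l ^ (A + 2 * A' + 1) = l ^ A * l * (l ^ A') ^ 2 := by ring
    rw [this]
    field_simp
    ring
  rw [e2] at h
  have h2 : E ≤ N / l ^ A * (8 * 2 ^ (A + 2 * A' + 1) / l) :=
    le_of_mul_le_mul_right h (by positivity)
  have h3 : 8 * 2 ^ (A + 2 * A' + 1) / l ≤ 1 := by
    rw [div_le_one hl0]
    exact hl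
  exact h2.trans (mul_le_of_le_one_right (by positivity) h3)

open Classical in
private theorem RefN_cls (θ θ' : ℝ) (h0 : 0 < θ') (h1 : θ' < θ) (h2 : θ < 1 / 3) (hx : HUX θ') (A A' B : ℕ) :
    ∃ N0 : ℕ, ∀ N : ℕ, N0 ≤ N → ∀ d c : ℕ, 1 ≤ d → (d : ℝ) ≤ Real.log N ^ B →
      (((Ioc N (2 * N)).filter (fun n => (Hn θ N : ℝ) / Real.log N ^ A' <
        |(∑ v ∈ (Ioc (RefN_x (Hn θ N) n) (RefN_x (Hn θ N) n + Hn θ N)).filter
            (fun v => v % d = c % d), Lam v)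
          - (if Nat.Coprime c d then (Hn θ N : ℝ) / d.totient else 0)|)).card : ℝ)
      ≤ (N : ℝ) / Real.log N ^ A := by
  obtain ⟨N1, hN1⟩ := hx (A + 2 * A' + 1) (2 * B)
  have hev : ∀ᶠ N : ℕ in Filter.atTop, 4 * (N1 + 1024) ≤ N := Filter.eventually_ge_atTop _
  obtain ⟨N0, hN0⟩ := Filter.eventually_atTop.mp (((RefN_ev_H1 h0 h1).and
    (RefN_ev_H2 (h0.trans h1) h2)).and (((RefN_ev_log (128 * 2 ^ (A + 2 * A' + 1))).and hev).and
      (RefN_third h2)))
  refine ⟨N0, fun N hN d c hd1 hd => ?_⟩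
  obtain ⟨⟨hH1, hHpos, hH2⟩, ⟨hL, hNN⟩, hthird⟩ := hN0 N hN
  set H : ℕ := Hn θ N with hHdef
  set K : ℕ := N / 4 with hKdef
  set M : ℝ := (if Nat.Coprime c d then (H : ℝ) / d.totient else 0) with hM
  have hp2 : (1 : ℝ) ≤ 2 ^ (A + 2 * A' + 1) := one_le_pow₀ (by norm_num)
  have hL128 : 128 ≤ Real.log N := by linarith
  have hL0 : 0 < Real.log N := by linarith
  have hNpos : 0 < N := by omega
  have hNR : (0 : ℝ) < N := by exact_mod_cast hNpos
  have hHR : (0 : ℝ) < H := by exact_mod_cast hHpos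
  -- the logarithms
  have hlogK : ∀ K' : ℕ, K ≤ K' → Real.log N / 2 ≤ Real.log K' := by
    intro K' hK'
    have h3 : (N : ℝ) / 8 ≤ K' := by
      have h4 : N ≤ 8 * K' := by omega
      have h5 : (N : ℝ) ≤ 8 * K' := by exact_mod_cast h4
      linarith
    have h6 : Real.log ((N : ℝ) / 8) ≤ Real.log K' := Real.log_le_log (by positivity) h3
    rw [Real.log_div hNR.ne' (by norm_num)] at h6
    have h7 : Real.log 8 ≤ 8 := by
      have := Real.log_le_sub_one_of_pos (by norm_num : (0 : ℝ) < 8)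
      linarith
    linarith
  -- the mean squares
  set G : ℕ → ℝ := fun x => ((∑ n ∈ (Ioc x (x + H)).filter (fun n => n % d = c % d), Lam n)
        - M) ^ 2 with hG
  have happ : ∀ K' : ℕ, K ≤ K' → K' ≤ 2 * N → ∑ x ∈ Ioc K' (2 * K'), G x ≤
      K' * (H : ℝ) ^ 2 * 2 ^ (A + 2 * A' + 1) / Real.log N ^ (A + 2 * A' + 1) := by
    intro K' hK1 hK2
    refine RefN_app (d := d) (B := B) (hlogK K' hK1) (by linarith) hd fun hd' => ?_
    have hb2 : N ≤ 8 * K' := by omega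
    have hb3 : (H : ℝ) ≤ (K' : ℝ) ^ (1 / 3 : ℝ) := hthird K' hb2
    refine hN1 K' (by omega) H ?_ hb3 d c hd1 hd'
    refine le_trans ?_ hH1
    refine Real.rpow_le_rpow (Nat.cast_nonneg _) ?_ h0.le
    exact_mod_cast hK2
  have hsum : ∑ x ∈ Ioc K (16 * K), G x ≤
      4 * N * (H : ℝ) ^ 2 * 2 ^ (A + 2 * A' + 1) / Real.log N ^ (A + 2 * A' + 1) := by
    rw [RefN_cover G K]
    have a1 := happ K le_rfl (by omega)
    have a2 := happ (2 * K) (by omega) (by omega)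
    have a3 := happ (4 * K) (by omega) (by omega)
    have a4 := happ (8 * K) (by omega) (by omega)
    have hK4 : 4 * (K : ℝ) ≤ N := by
      have : 4 * K ≤ N := by omega
      exact_mod_cast this
    have hq : 0 ≤ (H : ℝ) ^ 2 * 2 ^ (A + 2 * A' + 1) / Real.log N ^ (A + 2 * A' + 1) := by
      positivity
    have e0 : ∀ z : ℝ, z * (H : ℝ) ^ 2 * 2 ^ (A + 2 * A' + 1) / Real.log N ^ (A + 2 * A' + 1) =
        z * ((H : ℝ) ^ 2 * 2 ^ (A + 2 * A' + 1) / Real.log N ^ (A + 2 * A' + 1)) := by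
      intro z
      ring
    rw [e0] at a1 a2 a3 a4 ⊢
    push_cast at a2 a3 a4
    have h5 : 15 * (K : ℝ) * ((H : ℝ) ^ 2 * 2 ^ (A + 2 * A' + 1) /
        Real.log N ^ (A + 2 * A' + 1)) ≤ 4 * N * ((H : ℝ) ^ 2 * 2 ^ (A + 2 * A' + 1) /
        Real.log N ^ (A + 2 * A' + 1)) := mul_le_mul_of_nonneg_right (by linarith) hq
    linarith
  set bad : Finset ℕ := (Ioc N (2 * N)).filter (fun n => (H : ℝ) / Real.log N ^ A' <
        |(∑ v ∈ (Ioc (RefN_x H n) (RefN_x H n + H)).filter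
            (fun v => v % d = c % d), Lam v) - M|) with hbad
  have hcount := RefN_count G (fun x => sq_nonneg _) bad H K
    (g := ((H : ℝ) / Real.log N ^ A') ^ 2) hHpos (by positivity)
    (fun n hn => by
      have hn1 := (Finset.mem_filter.mp hn).1
      rw [mem_Ioc] at hn1
      have hHn : H ≤ n := by omega
      obtain ⟨b1, b2, _⟩ := RefN_x_bounds hHpos hHn
      refine ⟨hHn, ?_, ?_⟩ <;> omega)
    (fun n hn => by
      have hn2 := (Finset.mem_filter.mp hn).2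
      have h6 := pow_le_pow_left₀ (by positivity) hn2.le 2
      rw [sq_abs] at h6
      exact h6)
  refine RefN_arith (A := A) (A' := A') hHR hNR.le (by linarith) (hcount.trans ?_)
  linarith

theorem badN_card (θ θ' : ℝ) (h0 : 0 < θ') (h1 : θ' < θ) (h2 : θ < 1 / 3) (hx : HUX θ') (A B : ℕ) :
    ∃ N0 : ℕ, ∀ N : ℕ, N0 ≤ N → ((badN N (Hn θ N) A B).card : ℝ) ≤ (N : ℝ) / Real.log N ^ A := by
  classical
  obtain ⟨N0, hN0⟩ := RefN_cls θ θ' h0 h1 h2 hx (A + 2 * B) (A + B) B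
  obtain ⟨N1, hN1⟩ := Filter.eventually_atTop.mp ((RefN_ev_log 1).and
    (RefN_ev_H2 (h0.trans h1) h2))
  refine ⟨max N0 N1, fun N hN => ?_⟩
  obtain ⟨hL, hHpos, hH2⟩ := hN1 N ((le_max_right _ _).trans hN)
  have hcls := hN0 N ((le_max_left _ _).trans hN)
  have hL0 : 0 < Real.log N := by linarith
  have hHR : (0 : ℝ) < Hn θ N := by exact_mod_cast hHpos
  set H := Hn θ N with hH
  set R : ℕ := ⌊Real.log N ^ B⌋₊ with hR
  have hRle : (R : ℝ) ≤ Real.log N ^ B := Nat.floor_le (by positivity)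
  let bad : ℕ → ℕ → Finset ℕ := fun d c => (Ioc N (2 * N)).filter (fun n =>
    (H : ℝ) / Real.log N ^ (A + B) <
        |(∑ v ∈ (Ioc (RefN_x H n) (RefN_x H n + H)).filter
            (fun v => v % d = c % d), Lam v)
          - (if Nat.Coprime c d then (H : ℝ) / d.totient else 0)|)
  have hsub : badN N H A B ⊆ (Icc 1 R ×ˢ Icc 1 R).biUnion (fun t => bad t.1 t.2) := by
    intro n hn
    unfold badN at hn
    rw [Finset.mem_filter] at hn
    obtain ⟨hn1, r, a, hr1, hrB, har, hlt⟩ := hn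
    have hrR : r ≤ R := Nat.le_floor hrB
    have hHn : H ≤ n := by
      rw [mem_Ioc] at hn1
      omega
    by_contra hcon
    apply absurd hlt
    rw [not_lt]
    have h3 := RefN_twist (S := Ioc (RefN_x H n) (RefN_x H n + H)) (H := H)
      (ε := (H : ℝ) / Real.log N ^ (A + B)) hr1 har
      (fun c hc => by
        by_contra hc2
        rw [not_le] at hc2
        apply hcon
        rw [Finset.mem_biUnion]
        rw [mem_Icc] at hc
        refine ⟨(r, c), ?_, ?_⟩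
        · rw [Finset.mem_product, mem_Icc, mem_Icc]
          exact ⟨⟨hr1, hrR⟩, hc.1, hc.2.trans hrR⟩
        · exact Finset.mem_filter.mpr ⟨hn1, hc2⟩)
    have h4 := RefN_reindex hHpos hHn (fun v => ((Lam v : ℝ) : ℂ) * ee (-((a : ℝ) * (v : ℝ) / r)))
    rw [← h4] at h3
    refine h3.trans ?_
    calc (r : ℝ) * ((H : ℝ) / Real.log N ^ (A + B)) ≤
        Real.log N ^ B * ((H : ℝ) / Real.log N ^ (A + B)) :=
          mul_le_mul_of_nonneg_right hrB (by positivity)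
      _ = (H : ℝ) / Real.log N ^ A := by
          rw [pow_add]
          field_simp
  have hc1 : ∀ t ∈ Icc 1 R ×ˢ Icc 1 R, ((bad t.1 t.2).card : ℝ) ≤
      (N : ℝ) / Real.log N ^ (A + 2 * B) := by
    intro t ht
    rw [Finset.mem_product, mem_Icc, mem_Icc] at ht
    have h3 : (t.1 : ℝ) ≤ Real.log N ^ B := le_trans (by exact_mod_cast ht.1.2) hRle
    have h4 := hcls t.1 t.2 ht.1.1 h3
    refine le_trans (le_of_eq ?_) h4
    congr 2
  calc ((badN N H A B).card : ℝ) ≤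
      (((Icc 1 R ×ˢ Icc 1 R).biUnion (fun t => bad t.1 t.2)).card : ℝ) := by
        exact_mod_cast Finset.card_le_card hsub
    _ ≤ ∑ t ∈ Icc 1 R ×ˢ Icc 1 R, ((bad t.1 t.2).card : ℝ) := by
        exact_mod_cast Finset.card_biUnion_le
    _ ≤ ∑ _t ∈ Icc 1 R ×ˢ Icc 1 R, (N : ℝ) / Real.log N ^ (A + 2 * B) :=
        Finset.sum_le_sum hc1
    _ = (R : ℝ) * R * ((N : ℝ) / Real.log N ^ (A + 2 * B)) := by
        rw [Finset.sum_const, Finset.card_product, Nat.card_Icc, nsmul_eq_mul]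
        push_cast
        simp
    _ ≤ Real.log N ^ B * Real.log N ^ B * ((N : ℝ) / Real.log N ^ (A + 2 * B)) := by
        refine mul_le_mul_of_nonneg_right ?_ (by positivity)
        exact mul_le_mul hRle hRle (Nat.cast_nonneg _) (by positivity)
    _ = (N : ℝ) / Real.log N ^ A := by
        rw [pow_add, two_mul, pow_add]
        field_simp

end Pool.Agent.H43.TP
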