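import Pool.Agent.H43.TP.Sup
import Pool.Agent.H43.TP.Ev
import Pool.Agent.H43.TP.M12
import Pool.Agent.H43.TP.M3
import Pool.Agent.H43.TP.LamSq
import Pool.Agent.H43.TP.PPx
import Pool.Agent.H43.TP.Blk3
import Pool.Agent.H43.TP.RefN
import Pool.Agent.H76.GB.Sing

/-!
# TP Final: two primes with `|x| ≤ n^θ` from the black boxes `TPIN` and `HUX`
-/

set_option autoImplicit false

namespace Pool.Agent.H43.TP

open Finset
open Pool.Agent.H91.PK (ee)
open Pool.Agent.H91.EHA (Lam lamR ramS)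
open Pool.Agent.H43.MP (blk Hn idx Rn badP HUX)
open Pool.Agent.H76.GB (SR)

private theorem Fin_mem_blk (H n : ℕ) (hH : 1 ≤ H) : n ∈ blk H (n / H) := by
  unfold blk
  rw [mem_Ico]
  refine ⟨Nat.div_mul_le_self n H, ?_⟩
  have := Nat.lt_mul_div_succ n (show 0 < H by omega)
  rw [mul_comm]
  exact this

private theorem Fin_SR (R E : ℕ) (hR : 1 ≤ R) (hE : 1 ≤ E) : 1 ≤ SR R (2 * E) := by
  rcases Nat.lt_or_ge 1 R with h | h
  · exact Pool.Agent.H76.GB.sr_ge R (2 * E) h (by omega) (dvd_mul_right 2 E)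
  · have : R = 1 := by omega
    subst this
    unfold SR ramS
    simp

/-- the number of `n` in given blocks -/
private theorem Fin_cnt (N H : ℕ) (hH : 1 ≤ H) (S : Finset ℕ) :
    ((Ioc N (2 * N)).filter (fun n => n / H ∈ S)).card ≤ S.card * H := by
  have h1 : (Ioc N (2 * N)).filter (fun n => n / H ∈ S) ⊆ S.biUnion (blk H) := by
    intro n hn
    rw [mem_filter] at hn
    rw [mem_biUnion]
    exact ⟨n / H, hn.2, Fin_mem_blk H n hH⟩
  refine (card_le_card h1).trans (card_biUnion_le.trans ?_)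
  rw [sum_congr rfl fun i _ => blk_card H i, sum_const, smul_eq_mul]

/-- `Λ ≤ log(4N) 1_P` away from the proper prime powers -/
private theorem Fin_lam (N m : ℕ) (h : m ≤ 4 * N) (hm : ¬ (IsPrimePow m ∧ ¬ m.Prime)) :
    Lam m ≤ Real.log (4 * N) * pr m := by
  unfold pr Lam
  split_ifs with hp
  · rw [ArithmeticFunction.vonMangoldt_apply_prime hp, mul_one]
    exact Real.log_le_log (by exact_mod_cast hp.pos) (by exact_mod_cast h)
  · rw [mul_zero, ArithmeticFunction.vonMangoldt_apply, if_neg]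
    intro h1
    exact hm ⟨h1, hp⟩

private theorem Fin_num (N H L : ℝ) (A C : ℕ) (hN : 0 < N) (hH : 0 < H) (hL : 400 ≤ L) :
    60 * (2 * (H / L ^ (A + C + 12)) * L) ^ 2 * L ^ (C + 8) / H ≤ H / L ^ (A + 2) := by
  have hL0 : 0 < L := by linarith
  have hL1 : 1 ≤ L := by linarith
  have e1 : 60 * (2 * (H / L ^ (A + C + 12)) * L) ^ 2 * L ^ (C + 8) / H =
      240 * H * L ^ (C + 10) / L ^ (2 * (A + C + 12)) := by
    rw [show C + 10 = (C + 8) + 2 by ring, pow_add L (C + 8) 2, mul_comm 2 (A + C + 12), pow_mul]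
    field_simp
    ring
  rw [e1, div_le_div_iff₀ (by positivity) (by positivity)]
  have e2 : L ^ (2 * (A + C + 12)) = L ^ (C + 10) * L ^ (A + 2) * L ^ (A + C + 12) := by
    rw [← pow_add, ← pow_add]
    congr 1
    ring
  rw [e2]
  have e3 : (240 : ℝ) ≤ L ^ (A + C + 12) := by
    calc (240 : ℝ) ≤ L ^ 1 := by linarith
      _ ≤ L ^ (A + C + 12) := pow_le_pow_right₀ hL1 (by omega)
  calc 240 * H * L ^ (C + 10) * L ^ (A + 2) = H * (L ^ (C + 10) * L ^ (A + 2)) * 240 := by ring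
    _ ≤ H * (L ^ (C + 10) * L ^ (A + 2)) * L ^ (A + C + 12) :=
        mul_le_mul_of_nonneg_left e3 (by positivity)
    _ = _ := by ring

theorem tp_of (θ θ' c : ℝ) (h0 : 0 < θ') (h01 : θ' < θ) (h1 : θ < 1 / 3) (hc : 0 < c) (hc1 : c ≤ 1)
    (hin : TPIN θ c) (hx : HUX θ') (A : ℕ) :
    ∃ N0 : ℕ, ∀ N : ℕ, N0 ≤ N →
      (((Ioc N (2 * N)).filter (fun n =>
        ((sol2 (Hn θ N) n).ncard : ℝ) < c / 16 * (N : ℝ) ^ θ / Real.log N ^ 2)).card : ℝ)
      ≤ N / Real.log N ^ A := by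
  classical
  have h0θ : 0 < θ := h0.trans h01
  obtain ⟨C, hin⟩ := hin
  obtain ⟨B, N1, hF⟩ := hin (A + C + 12)
  obtain ⟨N2, hP⟩ := badP_card3 θ θ' h0 h01 h1 hx (A + B + 4) B
  obtain ⟨N3, hBN⟩ := badN_card θ θ' h0 h01 h1 hx (A + B + 4) B
  obtain ⟨N4, hE⟩ := ev_large θ c h0θ h1 hc hc1 B
  obtain ⟨N5, hpp⟩ := ppX_card θ h0θ h1.le (A + 1)
  obtain ⟨N6, hlam⟩ := lamR_blk B
  refine ⟨max (max N1 N2) (max (max N3 N4) (max N5 N6)), fun N hN => ?_⟩
  simp only [max_le_iff] at hN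
  obtain ⟨⟨hn1, hn2⟩, ⟨hn3, hn4⟩, hn5, hn6⟩ := hN
  obtain ⟨F, κ, p1, p2, p3, p4, p5⟩ := hF N hn1
  replace hP := hP N hn2
  replace hBN := hBN N hn3
  obtain ⟨f1, f2, f3, f4, f5, f6, f7, f8, f9, f10, f11⟩ := hE N hn4
  replace hpp := hpp N hn5
  replace hlam := hlam N hn6
  set L := Real.log N with hLdef
  set H := Hn θ N with hHdef
  set R := Rn B N with hRdef
  have hL400 : 400 ≤ L := by nlinarith
  have hN0 : N ≠ 0 := by
    rintro rfl
    rw [hLdef] at hL400
    norm_num at hL400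
  have hN1 : (1 : ℝ) ≤ N := by exact_mod_cast Nat.one_le_iff_ne_zero.2 hN0
  have hNpos : (0 : ℝ) < N := by linarith
  have hL0 : 0 < L := by linarith
  have hL1 : 1 ≤ L := by linarith
  have hH0 : (0 : ℝ) < H := by exact_mod_cast f3
  have hl0 : 0 < Real.log (4 * N) := by linarith
  set T : ℝ := H / L ^ 3 with hTdef
  have hT0 : 0 < T := by positivity
  have hQH : (H : ℝ) / L ^ (A + B + 4) ≤ T := by
    rw [hTdef]
    exact div_le_div_of_nonneg_left hH0.le (by positivity) (pow_le_pow_right₀ hL1 (by omega))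
  have hRQ : (R : ℝ) * ((H : ℝ) / L ^ (A + B + 4)) ≤ T := by
    have t1 : (R : ℝ) * ((H : ℝ) / L ^ (A + B + 4)) ≤ L ^ B * ((H : ℝ) / L ^ (A + B + 4)) :=
      mul_le_mul_of_nonneg_right f8 (by positivity)
    refine t1.trans ?_
    rw [hTdef, mul_div_assoc', div_le_div_iff₀ (by positivity) (by positivity)]
    have t3 : L ^ B * L ^ 3 ≤ L ^ (A + B + 4) := by
      rw [← pow_add]
      exact pow_le_pow_right₀ hL1 (by omega)
    calc L ^ B * H * L ^ 3 = H * (L ^ B * L ^ 3) := by ring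
      _ ≤ H * L ^ (A + B + 4) := mul_le_mul_of_nonneg_left t3 hH0.le
  -- the sets
  set idx1 := Icc (N / H) (2 * N / H) with hidx1
  have hq4 : 8 ≤ N / H := by
    rw [Nat.le_div_iff_mul_le (by omega)]
    omega
  have hidxs : ∀ i ∈ idx1, 1 ≤ i - 1 ∧ i - 1 ∈ idx N H ∧ i ∈ idx N H ∧ i + 1 ∈ idx N H := by
    intro i hi
    rw [hidx1, mem_Icc] at hi
    unfold idx
    simp only [mem_Icc]
    have t1 : N / (2 * H) = N / H / 2 := by rw [mul_comm, Nat.div_div_eq_div_mul]
    have t2 : 2 * N / H + 1 ≤ 3 * N / H := by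
      rw [← Nat.add_div_right _ (by omega)]
      exact Nat.div_le_div_right (by omega)
    omega
  have hup : ∀ i ∈ idx N H, (i + 1) * H ≤ 4 * N := by
    intro i hi
    unfold idx at hi
    rw [mem_Icc] at hi
    have t1 : (i + 1) * H ≤ (3 * N / H + 1) * H := Nat.mul_le_mul_right _ (by omega)
    have t2 : 3 * N / H * H ≤ 3 * N := Nat.div_mul_le_self _ _
    nlinarith
  have hlo : ∀ i ∈ idx N H, N ≤ 4 * (i * H) := by
    intro i hi
    unfold idx at hi
    rw [mem_Icc] at hi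
    have t1 : N / (2 * H) * H ≤ i * H := Nat.mul_le_mul_right _ hi.1
    have t2 := Nat.lt_mul_div_succ N (show 0 < 2 * H by omega)
    have t3 : 2 * H * (N / (2 * H) + 1) = 2 * (N / (2 * H) * H) + 2 * H := by ring
    omega
  set BF := badF N H R (A + C + 12) F κ with hBF
  set BP := badP N H (A + B + 4) B with hBP
  set BI := idx1.filter (fun i => i - 1 ∈ BF ∨ i ∈ BF ∨ i + 1 ∈ BF ∨ i ∈ BP) with hBI
  set GI := idx1.filter (fun i => ¬ (i - 1 ∈ BF ∨ i ∈ BF ∨ i + 1 ∈ BF ∨ i ∈ BP)) with hGI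
  have hBIc : (BI.card : ℝ) ≤ 3 * (N / H / L ^ (A + C + 12)) + N / H / L ^ (A + B + 4) := by
    have t1 : BI ⊆ ((BF.image (fun i => i + 1) ∪ BF) ∪ BF.image (fun i => i - 1)) ∪ BP := by
      intro i hi
      rw [hBI, mem_filter] at hi
      have := hidxs i hi.1
      simp only [mem_union, mem_image]
      rcases hi.2 with h | h | h | h
      · left; left; left; exact ⟨i - 1, h, by omega⟩
      · left; left; right; exact h
      · left; right; exact ⟨i + 1, h, by omega⟩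
      · right; exact h
    have t2 : BI.card ≤ 3 * BF.card + BP.card := by
      refine (card_le_card t1).trans ((card_union_le _ _).trans ?_)
      have a1 := card_union_le (BF.image (fun i => i + 1) ∪ BF) (BF.image (fun i => i - 1))
      have a2 := card_union_le (BF.image (fun i => i + 1)) BF
      have a3 : (BF.image (fun i => i + 1)).card ≤ BF.card := card_image_le
      have a4 : (BF.image (fun i => i - 1)).card ≤ BF.card := card_image_le
      omega
    have t3 : (BI.card : ℝ) ≤ 3 * BF.card + BP.card := by exact_mod_cast t2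
    linarith
  have hGIc : (GI.card : ℝ) ≤ 2 * (N / H) := by
    have t1 : GI.card ≤ 2 * N / H - N / H + 1 := by
      refine (card_le_card (filter_subset _ _)).trans ?_
      rw [hidx1, Nat.card_Icc]
      have : N / H ≤ 2 * N / H := Nat.div_le_div_right (by omega)
      omega
    have t2 : ((2 * N / H : ℕ) : ℝ) ≤ 2 * (N / H) := by
      refine (Nat.cast_div_le).trans (le_of_eq ?_)
      push_cast
      ring
    have t3 : (1 : ℝ) ≤ ((N / H : ℕ) : ℝ) := by exact_mod_cast (by omega : 1 ≤ N / H)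
    have t4 : (GI.card : ℝ) + ((N / H : ℕ) : ℝ) ≤ ((2 * N / H : ℕ) : ℝ) + 1 := by
      have : N / H ≤ 2 * N / H := Nat.div_le_div_right (by omega)
      exact_mod_cast (by omega : GI.card + N / H ≤ 2 * N / H + 1)
    linarith
  -- second moments
  have hLam2 : ∀ i ∈ idx N H, ∑ m ∈ blk H i, Lam m ^ 2 ≤ H * (2 * L) ^ 2 := by
    intro i hi
    refine Pool.Agent.H43.MP.lam_sq N H i (by omega) ?_
    have := hup i hi
    nlinarith
  -- uniformity
  set S : ℝ := 2 * (H / L ^ (A + C + 12)) * L with hS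
  have hfun : ∀ j ∈ idx N H, j ∉ BF → ∀ α : ℝ,
      ‖∑ m ∈ blk H j, ((F m - κ j * lamR R m : ℝ) : ℂ) * ee (-(α * m))‖ ≤ H / L ^ (A + C + 12) := by
    intro j hj hj2 α
    by_contra hcon
    push Not at hcon
    apply hj2
    rw [hBF]
    unfold badF
    simp only [mem_filter]
    exact ⟨hj, α, hcon⟩
  have hS1 : (H : ℝ) / L ^ (A + C + 12) + 1 / L ^ (A + C + 12) * (H * L) ≤ S := by
    rw [hS]
    have t1 : (0 : ℝ) < H / L ^ (A + C + 12) := by positivity
    have t2 : 1 / L ^ (A + C + 12) * (H * L) = H / L ^ (A + C + 12) * L := by ring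
    rw [t2]
    nlinarith
  have hsup : ∀ i ∈ GI, ∀ j : ℕ, (j = i - 1 ∨ j = i ∨ j = i + 1) → ∀ α : ℝ,
      ‖∑ m ∈ blk H j, ((Fh R (κ i) F m : ℝ) : ℂ) * ee (-(α * m))‖ ≤ S := by
    intro i hi j hj α
    rw [hGI, mem_filter] at hi
    obtain ⟨hi1, hi2⟩ := hi
    push Not at hi2
    obtain ⟨k1, k2, k3, k4⟩ := hi2
    obtain ⟨j1, j2, j3, j4⟩ := hidxs i hi1
    refine (sup_nb H j R (κ i) (κ j) (1 / L ^ (A + C + 12)) (H / L ^ (A + C + 12)) L F hL0.le ?_ ?_ ?_ α).trans hS1
    · rcases hj with rfl | rfl | rfl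
      · exact hfun _ j2 k1
      · exact hfun _ j3 k2
      · exact hfun _ j4 k3
    · rcases hj with rfl | rfl | rfl
      · have := p4 (i - 1) j2 (by rw [show i - 1 + 1 = i by omega]; exact j3)
        rw [show i - 1 + 1 = i by omega, abs_sub_comm] at this
        exact this
      · rw [sub_self, abs_zero]
        positivity
      · exact p4 i j3 j4
    · exact hlam H j (by omega) f5
  set bad : ℕ → Finset ℕ := fun i => (blk H i).filter (fun n => T < |rf H i Lam (Fh R (κ i) F) n| ∨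
      T < |rf H i (Fh R (κ i) F) Lam n| ∨ T < |rf H i (lamR R) (Fh R (κ i) F) n| ∨
      T < |rf H i (Fh R (κ i) F) F n|) with hbad
  have hbadc : ∀ i ∈ GI, ((bad i).card : ℝ) ≤ H / L ^ (A + 2) := by
    intro i hi
    have hi0 := hi
    rw [hGI, mem_filter] at hi
    obtain ⟨j1, j2, j3, j4⟩ := hidxs i hi.1
    refine (blk_bad H i R C (κ i) L S F f3 (by omega) hL1 (hsup i hi0 _ (Or.inl rfl))
      (hsup i hi0 _ (Or.inr (Or.inl rfl))) (hsup i hi0 _ (Or.inr (Or.inr rfl)))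
      (hLam2 _ j2) (hLam2 _ j3) (hLam2 _ j4) (hlam H i (by omega) f5) (p3 _ j2) (p3 _ j3) (p3 _ j4)).trans ?_
    rw [hS]
    exact Fin_num N H L A C hNpos hH0 hL400
  -- the exceptional set
  set X1 := ppX N H with hX1
  set X2 := (Ioc N (2 * N)).filter (fun n => n / H ∈ BI) with hX2
  set X3 := badN N H (A + B + 4) B with hX3
  set X4 := GI.biUnion bad with hX4
  have hsub : (Ioc N (2 * N)).filter (fun n =>
        ((sol2 H n).ncard : ℝ) < c / 16 * (N : ℝ) ^ θ / L ^ 2) ⊆ X1 ∪ (X2 ∪ (X3 ∪ X4)) := by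
    intro n hn
    rw [mem_filter] at hn
    obtain ⟨hn1, hn2⟩ := hn
    by_contra hcon
    simp only [mem_union, not_or] at hcon
    obtain ⟨c1, c2, c3, c4⟩ := hcon
    have hn1' := mem_Ioc.1 hn1
    have hidx : n / H ∈ idx1 := by
      rw [hidx1, mem_Icc]
      exact ⟨Nat.div_le_div_right (by omega), Nat.div_le_div_right (by omega)⟩
    have hGn : n / H ∈ GI := by
      rw [hGI, mem_filter]
      refine ⟨hidx, fun h => c2 ?_⟩
      rw [hX2, mem_filter]
      refine ⟨hn1, ?_⟩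
      rw [hBI, mem_filter]
      exact ⟨hidx, h⟩
    have hnb := Fin_mem_blk H n f3
    obtain ⟨j1, j2, j3, j4⟩ := hidxs (n / H) hidx
    have hGn' := hGn
    rw [hGI, mem_filter] at hGn'
    obtain ⟨-, hi2⟩ := hGn'
    push Not at hi2
    obtain ⟨k1, k2, k3, k4⟩ := hi2
    set i := n / H with hi
    have hnb' := hnb
    unfold blk at hnb'
    rw [mem_Ico] at hnb'
    have ee1 : (i + 1) * H = i * H + H := by ring
    -- the window
    have w1 : ∀ u ∈ blk H i, N ≤ 4 * u ∧ u ≤ 4 * N ∧ N ≤ 4 * (2 * n - u) ∧ 2 * n - u ≤ 4 * N ∧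
        n ≤ u + 2 * H ∧ u ≤ n + 2 * H ∧ n ≤ (2 * n - u) + 2 * H ∧ (2 * n - u) ≤ n + 2 * H := by
      intro u hu
      unfold blk at hu
      rw [mem_Ico] at hu
      omega
    have w2 : ∀ m : ℕ, n ≤ m + 2 * H → m ≤ n + 2 * H → ¬ (IsPrimePow m ∧ ¬ m.Prime) := by
      intro m hm1 hm2 hm3
      apply c1
      rw [hX1]
      unfold ppX
      simp only [mem_filter]
      exact ⟨hn1, m, hm1, hm2, hm3.1, hm3.2⟩
    have g1 : ∀ u ∈ blk H i, 0 ≤ F u ∧ (u.Prime → 1 ≤ F u) := fun u hu => p1 u (w1 u hu).1 (w1 u hu).2.1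
    have g2 : ∀ u ∈ blk H i, 0 ≤ F (2 * n - u) ∧ ((2 * n - u).Prime → 1 ≤ F (2 * n - u)) :=
      fun u hu => p1 _ (w1 u hu).2.2.1 (w1 u hu).2.2.2.1
    have g3 : ∀ u ∈ blk H i, Lam u ≤ Real.log (4 * N) * pr u := fun u hu =>
      Fin_lam N u (w1 u hu).2.1 (w2 u (w1 u hu).2.2.2.2.1 (w1 u hu).2.2.2.2.2.1)
    have g4 : ∀ u ∈ blk H i, Lam (2 * n - u) ≤ Real.log (4 * N) * pr (2 * n - u) := fun u hu =>
      Fin_lam N _ (w1 u hu).2.2.2.1 (w2 _ (w1 u hu).2.2.2.2.2.2.1 (w1 u hu).2.2.2.2.2.2.2)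
    have key := cnt_ge H i n (Real.log (4 * N)) hl0 F g1 g2 g3 g4
    -- the errors
    have d : |rf H i Lam (Fh R (κ i) F) n| ≤ T ∧ |rf H i (Fh R (κ i) F) Lam n| ≤ T ∧
        |rf H i (lamR R) (Fh R (κ i) F) n| ≤ T ∧ |rf H i (Fh R (κ i) F) F n| ≤ T := by
      by_contra hcon
      apply c4
      rw [hX4, mem_biUnion]
      refine ⟨i, hGn, ?_⟩
      rw [hbad]
      simp only [mem_filter]
      refine ⟨hnb, ?_⟩
      by_contra h2
      apply hcon
      push Not at h2
      exact h2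
    obtain ⟨d1, d2, d3, d4⟩ := d
    have m1' := (m1 N (A + B + 4) B H i n (by omega) j3 k4 hnb).trans hRQ
    have m2' := (m2 N (A + B + 4) B H n f3 (by omega) hn1 c3).trans hRQ
    have m3' := (m3 R H i n (by omega) hnb).trans (show (R : ℝ) ^ 4 ≤ T by
      have : (0 : ℝ) ≤ (R : ℝ) ^ 4 := by positivity
      linarith)
    have hSR : 1 ≤ SR R (2 * n) := Fin_SR R n f7 (by omega)
    -- the lower bound of the density
    have hk : 1 / (2 * L) ≤ κ i := by
      refine k_ge H i R (κ i) L (Real.log (4 * N)) F f3 (by omega) f7 (by linarith) f9 f10 f6 (p2 i j3).1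
        ?_ g3 ?_ ?_
      · intro u hu
        unfold pr
        split_ifs with hp
        · exact (g1 u hu).2 hp
        · exact (g1 u hu).1
      · -- the primes of the block
        have t1 : ‖∑ m ∈ blk H i, ((Lam m : ℝ) : ℂ) * ee (-(((0 : ℕ) : ℝ) * m / ((1 : ℕ) : ℝ)))
            - (((ArithmeticFunction.moebius 1 : ℝ) / ((1 : ℕ).totient : ℝ) * H : ℝ) : ℂ)‖
            ≤ (H : ℝ) / L ^ (A + B + 4) := by
          by_contra hcon
          push Not at hcon
          apply k4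
          rw [hBP]
          unfold badP
          simp only [mem_filter]
          refine ⟨j3, 1, 0, le_rfl, ?_, by norm_num, hcon⟩
          push_cast
          exact one_le_pow₀ hL1
        have t2 : (∑ m ∈ blk H i, ((Lam m : ℝ) : ℂ) * ee (-(((0 : ℕ) : ℝ) * m / ((1 : ℕ) : ℝ))))
            - (((ArithmeticFunction.moebius 1 : ℝ) / ((1 : ℕ).totient : ℝ) * H : ℝ) : ℂ)
            = ((∑ m ∈ blk H i, Lam m - H : ℝ) : ℂ) := by
          have t3 : ee ((0 : ℝ)) = 1 := by
            unfold ee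
            simp
          simp [t3]
        rw [t2, Complex.norm_real, Real.norm_eq_abs] at t1
        have t4 := (abs_le.1 (t1.trans hQH)).1
        linarith
      · have t1 := hfun i j3 k2 0
        have t2 : (∑ m ∈ blk H i, ((F m - κ i * lamR R m : ℝ) : ℂ) * ee (-((0 : ℝ) * m)))
            = ((∑ m ∈ blk H i, (F m - κ i * lamR R m) : ℝ) : ℂ) := by
          have t3 : ee ((0 : ℝ)) = 1 := by
            unfold ee
            simp
          simp [t3]
        rw [t2, Complex.norm_real, Real.norm_eq_abs] at t1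
        refine (le_abs_self _).trans (t1.trans ?_)
        exact div_le_div_of_nonneg_left hH0.le (by positivity) (pow_le_pow_right₀ hL1 (by omega))
    have fin := blk_alg _ _ _ _ _ _ _ _ _ _ (κ i) H L (Real.log (4 * N)) (SR R (2 * n)) c hc hc1 hH0.le
      f1 f9 f11 hSR hk (p2 i j3).2 (rf_LF H i R (κ i) F n) (rf_FL H i R (κ i) F n)
      (rf_FF H i R (κ i) F n) m1' m2' m3' d1 d2 d3 d4
    have h5 := fin.trans (key.trans (cn_le H i n (by omega) hnb))
    have h6 : c / 16 * (N : ℝ) ^ θ / L ^ 2 ≤ c / 8 * (H / L ^ 2) := by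
      have t1 : c / 16 * (N : ℝ) ^ θ / L ^ 2 = c / 8 * ((N : ℝ) ^ θ / 2 / L ^ 2) := by ring
      rw [t1]
      refine mul_le_mul_of_nonneg_left ?_ (by positivity)
      exact div_le_div_of_nonneg_right f2 (by positivity)
    linarith
  -- the cardinalities
  have hX2c : (X2.card : ℝ) ≤ 3 * (N / L ^ (A + C + 12)) + N / L ^ (A + B + 4) := by
    have t1 : (X2.card : ℝ) ≤ BI.card * H := by exact_mod_cast Fin_cnt N H f3 BI
    refine t1.trans ((mul_le_mul_of_nonneg_right hBIc hH0.le).trans (le_of_eq ?_))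
    field_simp
  have hX4c : (X4.card : ℝ) ≤ 2 * (N / L ^ (A + 2)) := by
    have t1 : (X4.card : ℝ) ≤ ∑ i ∈ GI, (H : ℝ) / L ^ (A + 2) := by
      have t2 : (X4.card : ℝ) ≤ ∑ i ∈ GI, ((bad i).card : ℝ) := by
        exact_mod_cast card_biUnion_le
      exact t2.trans (sum_le_sum fun i hi => hbadc i hi)
    rw [sum_const, nsmul_eq_mul] at t1
    refine t1.trans ((mul_le_mul_of_nonneg_right hGIc (by positivity)).trans (le_of_eq ?_))
    field_simp
  have hcard : (((Ioc N (2 * N)).filter (fun n =>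
        ((sol2 H n).ncard : ℝ) < c / 16 * (N : ℝ) ^ θ / L ^ 2)).card : ℝ)
      ≤ X1.card + (X2.card + (X3.card + X4.card)) := by
    have t1 := (card_le_card hsub).trans (card_union_le _ _)
    have t2 := card_union_le X2 (X3 ∪ X4)
    have t3 := card_union_le X3 X4
    exact_mod_cast (by omega)
  refine hcard.trans ?_
  -- numerical estimates
  have hLA : 0 < L ^ A := by positivity
  set M : ℝ := N / L ^ A with hM
  have hM0 : 0 < M := by positivity
  have mm : ∀ k : ℕ, 1 ≤ k → (N : ℝ) / L ^ (A + k) ≤ M / 400 := by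
    intro k hk
    rw [hM, pow_add, div_div]
    refine div_le_div_of_nonneg_left hNpos.le (by positivity) ?_
    refine mul_le_mul_of_nonneg_left ?_ hLA.le
    calc (400 : ℝ) ≤ L ^ 1 := by linarith
      _ ≤ L ^ k := pow_le_pow_right₀ hL1 hk
  have n1 := mm 1 le_rfl
  have n2 := mm 2 (by omega)
  have n3 := mm (C + 12) (by omega)
  have n4 := mm (B + 4) (by omega)
  rw [← add_assoc] at n3 n4
  linarith

end Pool.Agent.H43.TP
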