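import Pool.Agent.H43.TP.Final

/-!
# TP Res: the theorem in the form of the hand-in
-/

set_option autoImplicit false

namespace Pool.Agent.H43.TP

open Finset
open Pool.Agent.H43.MP (blk Hn idx Rn badP HUX)

/-- The integral solutions `x`, `|x| ≤ N^θ`, of the system `φ(n-x)+1 = n-x`, `φ(n+x)+1 = n+x`. -/
def solT (θ : ℝ) (N n : ℕ) : Set ℤ :=
  {x : ℤ | |(x : ℝ)| ≤ (N : ℝ) ^ θ ∧ 0 < (n : ℤ) - x ∧ 0 < (n : ℤ) + x ∧
    ((Nat.totient ((n : ℤ) - x).toNat : ℤ) + 1 = (n : ℤ) - x) ∧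
    ((Nat.totient ((n : ℤ) + x).toNat : ℤ) + 1 = (n : ℤ) + x)}

theorem solT_finite (θ : ℝ) (N n : ℕ) : (solT θ N n).Finite := by
  refine Set.Finite.subset (Set.finite_Icc (-⌈(N : ℝ) ^ θ⌉) ⌈(N : ℝ) ^ θ⌉) ?_
  rintro x ⟨hx, -⟩
  rw [abs_le] at hx
  have h1 := Int.le_ceil ((N : ℝ) ^ θ)
  rw [Set.mem_Icc]
  constructor
  · have : ((-⌈(N : ℝ) ^ θ⌉ : ℤ) : ℝ) ≤ (x : ℝ) := by
      push_cast
      linarith [hx.1]
    exact_mod_cast this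
  · have : (x : ℝ) ≤ ((⌈(N : ℝ) ^ θ⌉ : ℤ) : ℝ) := by linarith [hx.2]
    exact_mod_cast this

private theorem Res_tot (p : ℕ) (hp : p.Prime) : ((Nat.totient p : ℤ)) + 1 = p := by
  rw [Nat.totient_prime hp]
  have := hp.one_lt
  omega

theorem sol2_sub (θ : ℝ) (N n : ℕ) : sol2 (Hn θ N) n ⊆ solT θ N n := by
  rintro x ⟨h1, p, q, hp, hq, h2, h3⟩
  have hp0 := hp.pos
  have hq0 := hq.pos
  refine ⟨?_, ?_, ?_, ?_, ?_⟩
  · have h8 : (Hn θ N : ℝ) ≤ (N : ℝ) ^ θ := Nat.floor_le (by positivity)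
    have h9 : ((|x| : ℤ) : ℝ) ≤ ((Hn θ N : ℤ) : ℝ) := by exact_mod_cast h1
    push_cast at h9
    exact h9.trans h8
  · rw [h2]; exact_mod_cast hp0
  · rw [h3]; exact_mod_cast hq0
  · rw [h2, Int.toNat_natCast]; exact Res_tot p hp
  · rw [h3, Int.toNat_natCast]; exact Res_tot q hq

/-- the theorem of the hand-in, from the two black boxes -/
theorem tp_res (θ θ' c : ℝ) (h0 : 0 < θ') (h01 : θ' < θ) (h1 : θ < 1 / 3) (hc : 0 < c) (hc1 : c ≤ 1)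
    (hin : TPIN θ c) (hx : HUX θ') (A : ℕ) :
    ∃ N0 : ℕ, ∀ N : ℕ, N0 ≤ N →
      ({n : ℕ | N < n ∧ n ≤ 2 * N ∧
        ((solT θ N n).ncard : ℝ) < c / 16 * (N : ℝ) ^ θ / Real.log N ^ 2}.ncard : ℝ)
      ≤ N / Real.log N ^ A := by
  classical
  obtain ⟨N0, h⟩ := tp_of θ θ' c h0 h01 h1 hc hc1 hin hx A
  refine ⟨N0, fun N hN => ?_⟩
  refine le_trans ?_ (h N hN)
  have hsub : {n : ℕ | N < n ∧ n ≤ 2 * N ∧
        ((solT θ N n).ncard : ℝ) < c / 16 * (N : ℝ) ^ θ / Real.log N ^ 2} ⊆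
      (((Ioc N (2 * N)).filter (fun n =>
        ((sol2 (Hn θ N) n).ncard : ℝ) < c / 16 * (N : ℝ) ^ θ / Real.log N ^ 2) : Finset ℕ) : Set ℕ) := by
    rintro n ⟨ha, hb, hc⟩
    rw [Finset.mem_coe, mem_filter, mem_Ioc]
    refine ⟨⟨ha, hb⟩, lt_of_le_of_lt ?_ hc⟩
    exact_mod_cast Set.ncard_le_ncard (sol2_sub θ N n) (solT_finite θ N n)
  have := Set.ncard_le_ncard hsub (Finset.finite_toSet _)
  rw [Set.ncard_coe_finset] at this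
  exact_mod_cast this

end Pool.Agent.H43.TP
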