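import Pool.Agent.H43.TP.Err
import Pool.Agent.H43.TP.Alg
import Pool.Agent.H43.MP.WPb
import Pool.Agent.H91.EHA.SwK2

/-!
# TP Sup: the uniformity of `F#` in the neighbouring blocks, the lower bound of `κ`, the exceptional `n` of a block
-/

set_option autoImplicit false

namespace Pool.Agent.H43.TP

open Finset
open Pool.Agent.H91.PK (ee)
open Pool.Agent.H91.EHA (Lam lamR)
open Pool.Agent.H43.MP (blk Hn idx Rn)

private theorem Sup_ee (t : ℝ) : ‖ee t‖ = 1 := Pool.Agent.H91.PK.LSa_norm_ee t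

theorem blk_card (H i : ℕ) : (blk H i).card = H := by
  unfold blk
  rw [Nat.card_Ico]
  have : (i + 1) * H = i * H + H := by ring
  omega

private theorem Sup_l1 (g : ℕ → ℝ) (H j : ℕ) (L : ℝ) (hL : 0 ≤ L) (h : ∑ m ∈ blk H j, g m ^ 2 ≤ H * L ^ 2) :
    ∑ m ∈ blk H j, |g m| ≤ H * L := by
  have h1 : (∑ m ∈ blk H j, |g m|) ^ 2 ≤ (H * L) ^ 2 := by
    have h2 := sq_sum_le_card_mul_sum_sq (s := blk H j) (f := fun m => |g m|)
    rw [blk_card] at h2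
    simp only [sq_abs] at h2
    calc (∑ m ∈ blk H j, |g m|) ^ 2 ≤ (H : ℝ) * ∑ m ∈ blk H j, g m ^ 2 := h2
      _ ≤ H * (H * L ^ 2) := mul_le_mul_of_nonneg_left h (Nat.cast_nonneg _)
      _ = (H * L) ^ 2 := by ring
  exact le_of_sq_le_sq h1 (by positivity)

theorem sup_nb (H j R : ℕ) (k k' δ s L : ℝ) (F : ℕ → ℝ) (hL : 0 ≤ L)
    (h1 : ∀ α : ℝ, ‖∑ m ∈ blk H j, ((F m - k' * lamR R m : ℝ) : ℂ) * ee (-(α * m))‖ ≤ s)
    (h2 : |k - k'| ≤ δ) (h3 : ∑ m ∈ blk H j, lamR R m ^ 2 ≤ H * L ^ 2) (α : ℝ) :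
    ‖∑ m ∈ blk H j, ((Fh R k F m : ℝ) : ℂ) * ee (-(α * m))‖ ≤ s + δ * (H * L) := by
  have e : ∑ m ∈ blk H j, ((Fh R k F m : ℝ) : ℂ) * ee (-(α * m)) =
      ∑ m ∈ blk H j, ((F m - k' * lamR R m : ℝ) : ℂ) * ee (-(α * m)) +
      ∑ m ∈ blk H j, (((k' - k) * lamR R m : ℝ) : ℂ) * ee (-(α * m)) := by
    rw [← Finset.sum_add_distrib]
    refine Finset.sum_congr rfl fun m _ => ?_
    rw [← add_mul, ← Complex.ofReal_add]
    congr 2
    unfold Fh
    ring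
  rw [e]
  refine (norm_add_le _ _).trans (add_le_add (h1 α) ?_)
  calc ‖∑ m ∈ blk H j, (((k' - k) * lamR R m : ℝ) : ℂ) * ee (-(α * m))‖
      ≤ ∑ m ∈ blk H j, |k - k'| * |lamR R m| := by
        refine norm_sum_le_of_le _ fun m _ => ?_
        rw [norm_mul, Sup_ee, mul_one, Complex.norm_real, Real.norm_eq_abs, abs_mul, abs_sub_comm]
    _ = |k - k'| * ∑ m ∈ blk H j, |lamR R m| := by rw [Finset.mul_sum]
    _ ≤ δ * (H * L) := mul_le_mul h2 (Sup_l1 _ H j L hL h3) (Finset.sum_nonneg fun _ _ => abs_nonneg _)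
        ((abs_nonneg _).trans h2)

/-- the sum of `Λ_R` over a block -/
theorem lamR_sum (R H i : ℕ) (hR : 1 ≤ R) (hi : 1 ≤ i) (hH : 1 ≤ H) :
    |∑ m ∈ blk H i, lamR R m - H| ≤ 2 * (R : ℝ) ^ 4 := by
  have key : ∀ y : ℕ, |∑ n ∈ Icc 1 y, lamR R n - y| ≤ (R : ℝ) ^ 4 := by
    intro y
    have h := Pool.Agent.H91.EHA.lamR_exp R y 1 0 le_rfl hR (by norm_num)
    have e1 : (∑ n ∈ Icc 1 y, ((lamR R n : ℝ) : ℂ) * ee ((n : ℝ) * (0 : ℕ) / (1 : ℕ)))
        - (((ArithmeticFunction.moebius 1 : ℝ) / ((1 : ℕ).totient : ℝ) * y : ℝ) : ℂ)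
        = ((∑ n ∈ Icc 1 y, lamR R n - y : ℝ) : ℂ) := by
      have e2 : ee ((0 : ℝ)) = 1 := by
        unfold ee
        simp
      simp [e2]
    rw [e1, Complex.norm_real, Real.norm_eq_abs] at h
    exact h
  have e1 : (i + 1) * H = i * H + H := by ring
  have e2 : H ≤ i * H := Nat.le_mul_of_pos_left H hi
  have h1 := key (i * H - 1)
  have h2 := key ((i + 1) * H - 1)
  have h3 : ∑ m ∈ blk H i, lamR R m = ∑ n ∈ Icc 1 ((i + 1) * H - 1), lamR R n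
      - ∑ n ∈ Icc 1 (i * H - 1), lamR R n := by
    have e3 : Icc 1 ((i + 1) * H - 1) = Icc 1 (i * H - 1) ∪ blk H i := by
      ext m
      unfold blk
      rw [mem_union, mem_Icc, mem_Icc, mem_Ico]
      omega
    rw [e3, Finset.sum_union]
    · ring
    · rw [Finset.disjoint_left]
      intro m hm hm2
      unfold blk at hm2
      rw [mem_Icc] at hm
      rw [mem_Ico] at hm2
      omega
  have h4 : (((i + 1) * H - 1 : ℕ) : ℝ) - ((i * H - 1 : ℕ) : ℝ) = H := by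
    have h5 : (i + 1) * H - 1 = (i * H - 1) + H := by omega
    rw [h5]
    push_cast
    ring
  rw [abs_le] at h1 h2 ⊢
  rw [h3]
  constructor <;> linarith

/-- the lower bound of the density -/
theorem k_ge (H i R : ℕ) (k L l : ℝ) (F : ℕ → ℝ) (hH : 1 ≤ H) (hi : 1 ≤ i) (hR : 1 ≤ R) (hL : 10 ≤ L)
    (hl : L ≤ l) (hl2 : l ≤ 3 / 2 * L) (hR2 : 2 * (R : ℝ) ^ 4 ≤ H / L ^ 3) (hk : 0 ≤ k)
    (h1 : ∀ u ∈ blk H i, pr u ≤ F u) (h2 : ∀ u ∈ blk H i, Lam u ≤ l * pr u)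
    (h3 : H - H / L ^ 3 ≤ ∑ u ∈ blk H i, Lam u)
    (h4 : ∑ m ∈ blk H i, (F m - k * lamR R m) ≤ H / L ^ 3) : 1 / (2 * L) ≤ k := by
  have hL0 : 0 < L := by linarith
  have hl0 : 0 < l := by linarith
  have hH0 : (0 : ℝ) < H := by exact_mod_cast hH
  have a1 := lamR_sum R H i hR hi hH
  rw [abs_le] at a1
  have a2 : ∑ u ∈ blk H i, Lam u ≤ l * ∑ u ∈ blk H i, F u := by
    rw [Finset.mul_sum]
    refine Finset.sum_le_sum fun u hu => ?_
    exact (h2 u hu).trans (mul_le_mul_of_nonneg_left (h1 u hu) hl0.le)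
  rw [Finset.sum_sub_distrib, ← Finset.mul_sum] at h4
  set T : ℝ := H / L ^ 3 with hT
  have hT0 : 0 < T := by positivity
  have hL3 : L ^ 3 ≥ 1000 := by nlinarith [pow_le_pow_left₀ (by norm_num : (0:ℝ) ≤ 10) hL 3]
  have hT1 : T ≤ H / 1000 := div_le_div_of_nonneg_left hH0.le (by norm_num) hL3
  have hTL : T * L ≤ H / 100 := by
    have : T * L = H / L ^ 2 := by
      rw [hT]
      field_simp
    rw [this]
    exact div_le_div_of_nonneg_left hH0.le (by norm_num) (by nlinarith)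
  have a3 : ∑ u ∈ blk H i, F u ≤ k * (H + T) + T := by
    have := mul_le_mul_of_nonneg_left (show ∑ m ∈ blk H i, lamR R m ≤ H + T by linarith) hk
    linarith
  have a4 : H - T ≤ l * (k * (H + T) + T) := h3.trans (a2.trans (mul_le_mul_of_nonneg_left a3 hl0.le))
  have a5 : l * (k * (H + T) + T) ≤ 3 / 2 * L * (k * (H + T) + T) :=
    mul_le_mul_of_nonneg_right hl2 (by positivity)
  rw [div_le_iff₀ (by positivity)]
  by_contra hcon
  push Not at hcon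
  have a6 : k * L < 1 / 2 := by linarith
  have a7 : 3 / 2 * L * (k * (H + T) + T) = 3 / 2 * (k * L) * (H + T) + 3 / 2 * (T * L) := by ring
  have a8 : 3 / 2 * (k * L) * (H + T) ≤ 3 / 4 * (H + T) := by
    refine mul_le_mul_of_nonneg_right (by linarith) (by positivity)
  linarith

private theorem Sup_cheb (S : Finset ℕ) (f : ℕ → ℝ) (T X : ℝ) (hT : 0 < T)
    (h : ∑ n ∈ S, f n ^ 2 ≤ X) : ((S.filter (fun n => T < |f n|)).card : ℝ) ≤ X / T ^ 2 := by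
  rw [le_div_iff₀ (by positivity)]
  refine le_trans ?_ h
  calc ((S.filter (fun n => T < |f n|)).card : ℝ) * T ^ 2
      = ∑ n ∈ S.filter (fun n => T < |f n|), T ^ 2 := by rw [sum_const, nsmul_eq_mul]
    _ ≤ ∑ n ∈ S.filter (fun n => T < |f n|), f n ^ 2 := by
        refine sum_le_sum fun n hn => ?_
        rw [mem_filter] at hn
        rw [← sq_abs (f n)]
        exact pow_le_pow_left₀ hT.le hn.2.le 2
    _ ≤ ∑ n ∈ S, f n ^ 2 := sum_le_sum_of_subset_of_nonneg (filter_subset _ _)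
        fun n _ _ => sq_nonneg _

open Classical in
/-- the exceptional `n` of a good block -/
theorem blk_bad (H i R C : ℕ) (k L S : ℝ) (F : ℕ → ℝ) (hH : 1 ≤ H) (hi : 1 ≤ i) (hL : 1 ≤ L)
    (s0 : ∀ α : ℝ, ‖∑ m ∈ blk H (i - 1), ((Fh R k F m : ℝ) : ℂ) * ee (-(α * m))‖ ≤ S)
    (s1 : ∀ α : ℝ, ‖∑ m ∈ blk H i, ((Fh R k F m : ℝ) : ℂ) * ee (-(α * m))‖ ≤ S)
    (s2 : ∀ α : ℝ, ‖∑ m ∈ blk H (i + 1), ((Fh R k F m : ℝ) : ℂ) * ee (-(α * m))‖ ≤ S)
    (q0 : ∑ m ∈ blk H (i - 1), Lam m ^ 2 ≤ H * (2 * L) ^ 2)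
    (q1 : ∑ m ∈ blk H i, Lam m ^ 2 ≤ H * (2 * L) ^ 2)
    (q2 : ∑ m ∈ blk H (i + 1), Lam m ^ 2 ≤ H * (2 * L) ^ 2)
    (r1 : ∑ m ∈ blk H i, lamR R m ^ 2 ≤ H * L ^ 2)
    (f0 : ∑ m ∈ blk H (i - 1), F m ^ 2 ≤ H * L ^ C)
    (f1 : ∑ m ∈ blk H i, F m ^ 2 ≤ H * L ^ C)
    (f2 : ∑ m ∈ blk H (i + 1), F m ^ 2 ≤ H * L ^ C) :
    (((blk H i).filter (fun n => H / L ^ 3 < |rf H i Lam (Fh R k F) n| ∨
      H / L ^ 3 < |rf H i (Fh R k F) Lam n| ∨ H / L ^ 3 < |rf H i (lamR R) (Fh R k F) n| ∨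
      H / L ^ 3 < |rf H i (Fh R k F) F n|)).card : ℝ) ≤ 60 * S ^ 2 * L ^ (C + 8) / H := by
  have hL0 : 0 < L := by linarith
  have hH0 : (0 : ℝ) < H := by exact_mod_cast hH
  set T : ℝ := H / L ^ 3 with hT
  have hT0 : 0 < T := by positivity
  have b1 := Sup_cheb (blk H i) (rf H i Lam (Fh R k F)) T _ hT0
    ((err1 Lam (Fh R k F) H i hi S s0 s1 s2).trans (mul_le_mul_of_nonneg_left q1 (by positivity)))
  have b2 := Sup_cheb (blk H i) (rf H i (Fh R k F) Lam) T _ hT0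
    ((err2 Lam (Fh R k F) H i hi S s1).trans (mul_le_mul_of_nonneg_left
      (add_le_add (add_le_add q0 q1) q2) (by positivity)))
  have b3 := Sup_cheb (blk H i) (rf H i (lamR R) (Fh R k F)) T _ hT0
    ((err1 (lamR R) (Fh R k F) H i hi S s0 s1 s2).trans (mul_le_mul_of_nonneg_left r1 (by positivity)))
  have b4 := Sup_cheb (blk H i) (rf H i (Fh R k F) F) T _ hT0
    ((err2 F (Fh R k F) H i hi S s1).trans (mul_le_mul_of_nonneg_left
      (add_le_add (add_le_add f0 f1) f2) (by positivity)))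
  have hsub : (blk H i).filter (fun n => T < |rf H i Lam (Fh R k F) n| ∨
      T < |rf H i (Fh R k F) Lam n| ∨ T < |rf H i (lamR R) (Fh R k F) n| ∨
      T < |rf H i (Fh R k F) F n|) ⊆
      ((blk H i).filter (fun n => T < |rf H i Lam (Fh R k F) n|) ∪
      (blk H i).filter (fun n => T < |rf H i (Fh R k F) Lam n|)) ∪
      ((blk H i).filter (fun n => T < |rf H i (lamR R) (Fh R k F) n|) ∪
      (blk H i).filter (fun n => T < |rf H i (Fh R k F) F n|)) := by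
    intro n hn
    simp only [mem_union, mem_filter] at hn ⊢
    tauto
  have hc : (((blk H i).filter (fun n => T < |rf H i Lam (Fh R k F) n| ∨
      T < |rf H i (Fh R k F) Lam n| ∨ T < |rf H i (lamR R) (Fh R k F) n| ∨
      T < |rf H i (Fh R k F) F n|)).card : ℝ) ≤
      (((blk H i).filter (fun n => T < |rf H i Lam (Fh R k F) n|)).card : ℝ) +
      ((blk H i).filter (fun n => T < |rf H i (Fh R k F) Lam n|)).card +
      (((blk H i).filter (fun n => T < |rf H i (lamR R) (Fh R k F) n|)).card +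
      ((blk H i).filter (fun n => T < |rf H i (Fh R k F) F n|)).card) := by
    have := (card_le_card hsub).trans (card_union_le _ _)
    have h2 := card_union_le ((blk H i).filter (fun n => T < |rf H i Lam (Fh R k F) n|))
      ((blk H i).filter (fun n => T < |rf H i (Fh R k F) Lam n|))
    have h3 := card_union_le ((blk H i).filter (fun n => T < |rf H i (lamR R) (Fh R k F) n|))
      ((blk H i).filter (fun n => T < |rf H i (Fh R k F) F n|))
    exact_mod_cast this.trans (add_le_add h2 h3)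
  refine hc.trans ?_
  have hLC : 1 ≤ L ^ C := one_le_pow₀ hL
  have e1 : 9 * S ^ 2 * (H * (2 * L) ^ 2) / T ^ 2 = 36 * (S ^ 2 * L ^ 8 / H) := by
    rw [hT]
    field_simp
    ring
  have e2 : S ^ 2 * (H * (2 * L) ^ 2 + H * (2 * L) ^ 2 + H * (2 * L) ^ 2) / T ^ 2 =
      12 * (S ^ 2 * L ^ 8 / H) := by
    rw [hT]
    field_simp
    ring
  have e3 : 9 * S ^ 2 * (H * L ^ 2) / T ^ 2 = 9 * (S ^ 2 * L ^ 8 / H) := by
    rw [hT]
    field_simp
  have e4 : S ^ 2 * (H * L ^ C + H * L ^ C + H * L ^ C) / T ^ 2 = 3 * (S ^ 2 * L ^ 6 / H) * L ^ C := by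
    rw [hT]
    field_simp
    ring
  have e5 : 60 * S ^ 2 * L ^ (C + 8) / H = 60 * ((S ^ 2 * L ^ 8 / H) * L ^ C) := by
    rw [pow_add]
    ring
  have e6 : S ^ 2 * L ^ 6 / H ≤ S ^ 2 * L ^ 8 / H := by
    refine div_le_div_of_nonneg_right ?_ hH0.le
    exact mul_le_mul_of_nonneg_left (pow_le_pow_right₀ hL (by norm_num)) (sq_nonneg S)
  have e7 : 0 ≤ S ^ 2 * L ^ 8 / H := by positivity
  have e8 : S ^ 2 * L ^ 8 / H ≤ (S ^ 2 * L ^ 8 / H) * L ^ C := le_mul_of_one_le_right e7 hLC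
  have e9 : (S ^ 2 * L ^ 6 / H) * L ^ C ≤ (S ^ 2 * L ^ 8 / H) * L ^ C :=
    mul_le_mul_of_nonneg_right e6 (by positivity)
  rw [e1] at b1
  rw [e2] at b2
  rw [e3] at b3
  rw [e4] at b4
  rw [e5]
  linarith

end Pool.Agent.H43.TP
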